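import Pool.Agent.THY.Hyp
import Pool.Agent.RHS.Base

/-!
# THY, module Herm: several equations; Hermitian rings over a base
-/

set_option autoImplicit false
set_option linter.unusedSectionVars false
set_option linter.style.haveILetI false

namespace Pool.Agent.THY

open Function Polynomial Pool.Agent.HPow Pool.Agent.RHS

variable {p m q t : ℕ} {k : Type} [Field k] {G : (R : Type) → [CommRing R] → Prop}

theorem ClsH.cons (hG : ClsH p q k G) {W : Type} [CommRing W] {s : ℕ} (f0 : W) (f : Fin s → W)
    (h : G (AS q W (Fin.cons f0 f : Fin (s + 1) → W))) :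
    G (AS1 q (AS q W f) (algebraMap W (AS q W f) f0)) := by
  obtain ⟨e, -⟩ := AS.exists_cons q f0 f
  exact hG.iso _ _ e h

theorem ClsH.uncons (hG : ClsH p q k G) {W : Type} [CommRing W] {s : ℕ} (f0 : W)
    (f : Fin s → W) (h : G (AS1 q (AS q W f) (algebraMap W (AS q W f) f0))) :
    G (AS q W (Fin.cons f0 f : Fin (s + 1) → W)) := by
  obtain ⟨e, -⟩ := AS.exists_cons q f0 f
  exact hG.iso _ _ e.symm h

theorem ClsH.two (hG : ClsH p q k G) {W : Type} [CommRing W] {s : ℕ} (f0 f1 : W)
    (f : Fin s → W) (h : G (V2 q (AS q W f) (algebraMap W _ f1) (algebraMap W _ f0))) :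
    G (AS q W (Fin.cons f0 (Fin.cons f1 f : Fin (s + 1) → W) : Fin (s + 2) → W)) := by
  refine hG.uncons f0 _ ?_
  obtain ⟨e, he⟩ := AS.exists_cons q f1 f
  obtain ⟨e'⟩ := AS1.exists_congr q e (algebraMap W _ f0)
  rw [he] at e'
  exact hG.iso _ _ e'.symm h

/-- **from several equations to one** -/
theorem ClsH.as (hG : ClsH p q k G) (h : Setg p m q t k) {W : Type} [CommRing W] [Algebra k W]
    [IsNoetherianRing W] {s : ℕ} (f : Fin s → W) (h0 : G W)
    (h1 : ∀ c : Fin s → k, (∀ i, c i ^ q = c i) →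
      G (AS1 q W (∑ i, algebraMap k W (c i) * f i))) : G (AS q W f) := by
  have hq0 : q ≠ 0 := by
    have := h.q_two_le
    omega
  have key : ∀ (n : ℕ) (f : Fin (n + 1) → W), (∀ c : Fin (n + 1) → k, (∀ i, c i ^ q = c i) →
      G (AS1 q W (∑ i, algebraMap k W (c i) * f i))) → G (AS q W f) := by
    intro n
    induction n with
    | zero =>
      intro f hf
      have h2 := hf (fun _ => 1) (fun _ => one_pow _)
      rw [Fin.sum_univ_one, map_one, one_mul] at h2
      rw [← Fin.cons_self_tail f]
      refine hG.uncons _ _ ?_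
      obtain ⟨e⟩ := AS1.exists_congr q (RingEquiv.ofBijective _ (asr_bij q (Fin.tail f))) (f 0)
      exact hG.iso _ _ e h2
    | succ n ih =>
      intro f hf
      have hff : f = Fin.cons (f 0) (Fin.cons (f 1) (Fin.tail (Fin.tail f)) : Fin (n + 1) → W) := by
        rw [show f 1 = Fin.tail f 0 from rfl, Fin.cons_self_tail, Fin.cons_self_tail]
      rw [hff]
      set f0 := f 0
      set f1 := f 1
      set g := Fin.tail (Fin.tail f) with hg
      have hsum : ∀ a b : k, a ^ q = a → b ^ q = b → ∀ c : Fin n → k, (∀ i, c i ^ q = c i) →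
          G (AS1 q W (algebraMap k W a * f0 + (algebraMap k W b * f1 +
            ∑ i, algebraMap k W (c i) * g i))) := by
        intro a b ha hb c hc
        have h2 := hf (Fin.cons a (Fin.cons b c : Fin (n + 1) → k)) (fun i => by
          refine Fin.cases ?_ (fun j => ?_) i
          · rw [Fin.cons_zero, ha]
          · rw [Fin.cons_succ]
            refine Fin.cases ?_ (fun l => ?_) j
            · rw [Fin.cons_zero, hb]
            · rw [Fin.cons_succ, hc])
        rw [Fin.sum_univ_succ, Fin.sum_univ_succ] at h2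
        exact h2
      refine hG.two f0 f1 g (hG.asx _ _ _ ?_ ?_)
      · refine hG.cons f0 g (ih _ (fun c hc => ?_))
        rw [Fin.sum_univ_succ]
        have h2 := hsum (c 0) 0 (hc 0) (zero_pow hq0) (fun i => c i.succ) (fun i => hc i.succ)
        rw [map_zero, zero_mul, zero_add] at h2
        exact h2
      · intro d hd
        have h3 : algebraMap W (AS q W g) f1 + algebraMap k (AS q W g) d *
            algebraMap W (AS q W g) f0 = algebraMap W (AS q W g) (f1 + algebraMap k W d * f0) := by
          rw [map_add, map_mul, ← IsScalarTower.algebraMap_apply k W (AS q W g)]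
        rw [h3]
        refine hG.cons _ g (ih _ (fun c hc => ?_))
        rw [Fin.sum_univ_succ]
        have h2 := hsum (c 0 * d) (c 0) (by rw [mul_pow, hc 0, hd]) (hc 0)
          (fun i => c i.succ) (fun i => hc i.succ)
        have h4 : algebraMap k W (c 0) * (f1 + algebraMap k W d * f0) +
            ∑ i : Fin n, algebraMap k W (c i.succ) * g i =
            algebraMap k W (c 0 * d) * f0 + (algebraMap k W (c 0) * f1 +
            ∑ i : Fin n, algebraMap k W (c i.succ) * g i) := by
          rw [map_mul]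
          ring
        rw [← h4] at h2
        exact h2
  cases s with
  | zero =>
    obtain ⟨e⟩ := AS.exists_zero q f
    exact hG.iso _ _ e.symm h0
  | succ s => exact key s f h1

/-- **Hermitian rings over a base, by parity.** -/
theorem ClsH.rel (hG : ClsH p q k G) (hk : Setg p m q t k) {B : Type} [CommRing B] [Algebra k B]
    [IsNoetherianRing B] {s n : ℕ} (h : Fin s → B) (a : Fin s → Fin n → k)
    (ha : ∀ i j, a i j ^ q = a i j) (H0 : G B)
    (He : ∀ c : Fin s → k, (∀ i, c i ^ q = c i) → Even (Nat.card {j // ∑ i, c i * a i j ≠ 0}) →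
      G (AS1 q B (∑ i, algebraMap k B (c i) * h i)))
    (Ho : ∀ c : Fin s → k, (∀ i, c i ^ q = c i) → ¬ Even (Nat.card {j // ∑ i, c i * a i j ≠ 0}) →
      G (AS1 q B[X] (C (∑ i, algebraMap k B (c i) * h i) + X ^ (q + 1)))) :
    G (HermB q h a) := by
  classical
  obtain ⟨e⟩ := base_iso q h a
  have hfr : ∀ (r : Finset (Fin s)) (F : Fin s → k), (∑ i ∈ r, F i) ^ q =
      ∑ i ∈ r, F i ^ q := by
    intro r F
    induction r using Finset.induction_on with
    | empty => simp [show q ≠ 0 by have := hk.q_two_le; omega]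
    | insert i r hi ih => rw [Finset.sum_insert hi, Finset.sum_insert hi, hk.add_pow, ih]
  refine hG.iso _ _ e (hG.as hk _ (hG.mvFin H0 n) ?_)
  intro c hc
  have hcard : Nat.card {j // ∑ i, c i * a i j ≠ 0} =
      (Finset.univ.filter fun j => ∑ i, c i * a i j ≠ 0).card := by
    rw [Nat.card_eq_fintype_card, Fintype.card_subtype]
  have hst : Ps q k G B (∑ i, algebraMap k B (c i) * h i)
      (0 + (Finset.univ.filter fun j => ∑ i, c i * a i j ≠ 0).card) := by
    rw [zero_add, ← hcard]
    refine ⟨H0, He c hc, fun hr b hb hb0 => ?_⟩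
    obtain ⟨l, hl0, hl⟩ := hk.exists_norm b hb hb0
    obtain ⟨e⟩ := base_scale q (∑ i, algebraMap k B (c i) * h i) b l hl0 hl
    exact hG.iso _ _ e (Ho c hc hr)
  have h1 := (Ps.mv hG hk _ n (fun j => ∑ i, c i * a i j) (fun j => by
    show (∑ i, c i * a i j) ^ q = ∑ i, c i * a i j
    rw [hfr]
    refine Finset.sum_congr rfl (fun i _ => ?_)
    rw [mul_pow, hc i, ha i j]) 0 hst).2.1 ⟨0, rfl⟩
  have e1 : (∑ i, algebraMap k (MvPolynomial (Fin n) B) (c i) *
      (MvPolynomial.C (h i) +
        ∑ j, MvPolynomial.C (algebraMap k B (a i j)) * MvPolynomial.X j ^ (q + 1))) =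
      MvPolynomial.C (∑ i, algebraMap k B (c i) * h i) +
        ∑ j, MvPolynomial.C (algebraMap k B (∑ i, c i * a i j)) *
          MvPolynomial.X j ^ (q + 1) := by
    have hA : ∀ x : k, algebraMap k (MvPolynomial (Fin n) B) x =
      MvPolynomial.C (algebraMap k B x) := fun _ => rfl
    simp only [Finset.mul_sum, map_sum, Finset.sum_mul, map_mul, hA, mul_add,
      Finset.sum_add_distrib, mul_assoc]
    rw [Finset.sum_comm (s := (Finset.univ : Finset (Fin s)))]
  rw [e1]
  exact h1

/-- **Hermitian rings over `k`.** -/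
theorem ClsH.herm (hG : ClsH p q k G) (hk : Setg p m q t k) {s n : ℕ} (a : Fin s → Fin n → k)
    (ha : ∀ i j, a i j ^ q = a i j) (H0 : G k)
    (Ho : (∃ c : Fin s → k, (∀ i, c i ^ q = c i) ∧
      ¬ Even (Nat.card {j // ∑ i, c i * a i j ≠ 0})) → G (AS1 q k[X] (X ^ (q + 1)))) :
    G (HermRing q a) := by
  have hk0 : G (AS1 q k 0) := by
    obtain ⟨s, hs⟩ := exists_tr hk
    refine hG.split H0 s _ ?_
    rw [C_0, sub_zero, hs]
    rfl
  have hsum : ∀ c : Fin s → k, (∑ i, algebraMap k k (c i) * (0 : Fin s → k) i) = 0 := by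
    intro c
    refine Finset.sum_eq_zero fun i _ => ?_
    rw [Pi.zero_apply, mul_zero]
  have h1 := hG.rel hk (0 : Fin s → k) a ha H0 (fun c _ _ => by
    rw [hsum c]
    exact hk0) (fun c hc hn => by
    rw [hsum c, C_0, zero_add]
    exact Ho ⟨c, hc, hn⟩)
  refine hG.iso _ _ (Ideal.quotEquivOfEq ?_) h1
  refine congrArg (fun z => Ideal.span (Set.range z)) (funext fun i => ?_)
  rw [Pi.zero_apply, MvPolynomial.C_0, sub_zero]
  rfl

end Pool.Agent.THY
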