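import Pool.Agent.THY.Fermat

/-!
# THY, module Ten: tensor products of Hermitian rings
-/

set_option autoImplicit false

noncomputable section

namespace Pool.Agent.THY

open Function Pool.Agent.KSS Pool.Agent.HPow

theorem card_split {n n' : ℕ} (P : Fin (n + n') → Prop) :
    Nat.card {j // P j} = Nat.card {j : Fin n // P (Fin.castAdd n' j)} +
      Nat.card {j : Fin n' // P (Fin.natAdd n j)} := by
  rw [← Nat.card_sum]
  refine Nat.card_congr (Equiv.trans (Equiv.symm ?_)
    (Equiv.subtypeSum (p := fun x : Fin n ⊕ Fin n' => P (finSumFinEquiv x))))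
  exact finSumFinEquiv.subtypeEquiv fun x => Iff.rfl

/-- block matrices -/
def aT {k : Type} [Field k] {s s' n n' : ℕ} (a : Fin s → Fin n → k) (a' : Fin s' → Fin n' → k) :
    Fin (s + s') → Fin (n + n') → k :=
  Fin.append (fun i => Fin.append (a i) 0) (fun i => Fin.append 0 (a' i))

section

variable {k : Type} [Field k] {s s' n n' : ℕ} (a : Fin s → Fin n → k) (a' : Fin s' → Fin n' → k)

theorem aT_ll (i : Fin s) (j : Fin n) : aT a a' (Fin.castAdd s' i) (Fin.castAdd n' j) = a i j := by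
  unfold aT
  rw [Fin.append_left, Fin.append_left]

theorem aT_lr (i : Fin s) (j : Fin n') : aT a a' (Fin.castAdd s' i) (Fin.natAdd n j) = 0 := by
  unfold aT
  rw [Fin.append_left, Fin.append_right]
  rfl

theorem aT_rl (i : Fin s') (j : Fin n) : aT a a' (Fin.natAdd s i) (Fin.castAdd n' j) = 0 := by
  unfold aT
  rw [Fin.append_right, Fin.append_left]
  rfl

theorem aT_rr (i : Fin s') (j : Fin n') :
    aT a a' (Fin.natAdd s i) (Fin.natAdd n j) = a' i j := by
  unfold aT
  rw [Fin.append_right, Fin.append_right]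

theorem aT_suml (c : Fin (s + s') → k) (j : Fin n) :
    ∑ i, c i * aT a a' i (Fin.castAdd n' j) = ∑ i, c (Fin.castAdd s' i) * a i j := by
  rw [Fin.sum_univ_add, Finset.sum_eq_zero (f := fun i => c (Fin.natAdd s i) *
    aT a a' (Fin.natAdd s i) (Fin.castAdd n' j)) fun i _ => by rw [aT_rl, mul_zero], add_zero]
  exact Finset.sum_congr rfl fun i _ => by rw [aT_ll]

theorem aT_sumr (c : Fin (s + s') → k) (j : Fin n') :
    ∑ i, c i * aT a a' i (Fin.natAdd n j) = ∑ i, c (Fin.natAdd s i) * a' i j := by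
  rw [Fin.sum_univ_add, Finset.sum_eq_zero (f := fun i => c (Fin.castAdd s' i) *
    aT a a' (Fin.castAdd s' i) (Fin.natAdd n j)) fun i _ => by rw [aT_lr, mul_zero], zero_add]
  exact Finset.sum_congr rfl fun i _ => by rw [aT_rr]

end

/-- the tensor product of two Hermitian rings -/
theorem herm_iso_ten {k : Type} [Field k] {q : ℕ} {s s' n n' : ℕ}
    (a : Fin s → Fin n → k) (a' : Fin s' → Fin n' → k) :
    Nonempty (TensorProduct k (HermRing q a) (HermRing q a') ≃ₐ[k] HermRing q (aT a a')) := by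
  let e : (Fin s ⊕ Fin n) ⊕ (Fin s' ⊕ Fin n') ≃ Fin (s + s') ⊕ Fin (n + n') :=
    (Equiv.sumSumSumComm _ _ _ _).trans (Equiv.sumCongr finSumFinEquiv finSumFinEquiv)
  refine Q1a_equiv (k := k)
    (fun i => MvPolynomial.X (Sum.inl i) ^ q + MvPolynomial.X (Sum.inl i) -
      ∑ j, MvPolynomial.C (a i j) * MvPolynomial.X (Sum.inr j) ^ (q + 1))
    (fun i => MvPolynomial.X (Sum.inl i) ^ q + MvPolynomial.X (Sum.inl i) -
      ∑ j, MvPolynomial.C (a' i j) * MvPolynomial.X (Sum.inr j) ^ (q + 1))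
    (fun i => MvPolynomial.X (Sum.inl i) ^ q + MvPolynomial.X (Sum.inl i) -
      ∑ j, MvPolynomial.C (aT a a' i j) * MvPolynomial.X (Sum.inr j) ^ (q + 1))
    e (Fin.castAdd s') (Fin.natAdd s) ?_ ?_ ?_
  · intro i
    have h1 : ∑ j, MvPolynomial.C (aT a a' (Fin.castAdd s' i) j) *
        (MvPolynomial.X (Sum.inr j) : MvPolynomial (Fin (s + s') ⊕ Fin (n + n')) k) ^ (q + 1) =
        ∑ j, MvPolynomial.C (a i j) *
          MvPolynomial.X (Sum.inr (Fin.castAdd n' j)) ^ (q + 1) := by
      rw [Fin.sum_univ_add, Finset.sum_eq_zero (f := fun j => MvPolynomial.C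
        (aT a a' (Fin.castAdd s' i) (Fin.natAdd n j)) *
        (MvPolynomial.X (Sum.inr (Fin.natAdd n j)) :
          MvPolynomial (Fin (s + s') ⊕ Fin (n + n')) k) ^ (q + 1)) fun j _ => by
          rw [aT_lr, map_zero, zero_mul], add_zero]
      exact Finset.sum_congr rfl fun j _ => by rw [aT_ll]
    rw [h1, map_sub, map_add, map_pow, map_sum, MvPolynomial.rename_X]
    congr 1
    refine Finset.sum_congr rfl fun j _ => ?_
    rw [map_mul, map_pow, MvPolynomial.rename_X, MvPolynomial.rename_C]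
    rfl
  · intro i
    have h1 : ∑ j, MvPolynomial.C (aT a a' (Fin.natAdd s i) j) *
        (MvPolynomial.X (Sum.inr j) : MvPolynomial (Fin (s + s') ⊕ Fin (n + n')) k) ^ (q + 1) =
        ∑ j, MvPolynomial.C (a' i j) *
          MvPolynomial.X (Sum.inr (Fin.natAdd n j)) ^ (q + 1) := by
      rw [Fin.sum_univ_add, Finset.sum_eq_zero (f := fun j => MvPolynomial.C
        (aT a a' (Fin.natAdd s i) (Fin.castAdd n' j)) *
        (MvPolynomial.X (Sum.inr (Fin.castAdd n' j)) :
          MvPolynomial (Fin (s + s') ⊕ Fin (n + n')) k) ^ (q + 1)) fun j _ => by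
          rw [aT_rl, map_zero, zero_mul], zero_add]
      exact Finset.sum_congr rfl fun j _ => by rw [aT_rr]
    rw [h1, map_sub, map_add, map_pow, map_sum, MvPolynomial.rename_X]
    congr 1
    refine Finset.sum_congr rfl fun j _ => ?_
    rw [map_mul, map_pow, MvPolynomial.rename_X, MvPolynomial.rename_C]
    rfl
  · intro i
    exact Fin.addCases (fun j => Or.inl ⟨j, rfl⟩) (fun j => Or.inr ⟨j, rfl⟩) i

/-- **Hermitian algebras are closed under tensor products.** -/
theorem herm_ten {k : Type} [Field k] {q : ℕ} (hq : 1 ≤ q) (ev : Prop) (V V' : Type)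
    [CommRing V] [CommRing V'] [Algebra k V] [Algebra k V'] (h : IsHermk q k ev V)
    (h' : IsHermk q k ev V') : IsHermk q k ev (TensorProduct k V V') := by
  obtain ⟨s, n, a, ha, hev, ⟨e₁⟩⟩ := h
  obtain ⟨s', n', a', ha', hev', ⟨e₂⟩⟩ := h'
  obtain ⟨E⟩ := herm_iso_ten a a'
  have h0 : (0 : k) ^ q = 0 := zero_pow (by omega)
  refine ⟨s + s', n + n', aT a a', fun i j => ?_, fun he c hc => ?_,
    ⟨(Algebra.TensorProduct.congr e₁ e₂).trans E⟩⟩
  · refine Fin.addCases (fun i => ?_) (fun i => ?_) i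
    · refine Fin.addCases (fun j => ?_) (fun j => ?_) j
      · rw [aT_ll, ha]
      · rw [aT_lr, h0]
    · refine Fin.addCases (fun j => ?_) (fun j => ?_) j
      · rw [aT_rl, h0]
      · rw [aT_rr, ha']
  · rw [card_split]
    simp only [aT_suml, aT_sumr]
    exact (hev he _ fun i => hc _).add (hev' he _ fun i => hc _)

end Pool.Agent.THY
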