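import Pool.Agent.THY.Herm

/-!
# THY, module Inst: `G₀` up to powers of `p` is an instance
-/

set_option autoImplicit false
set_option linter.unusedSectionVars false
set_option linter.style.haveILetI false

namespace Pool.Agent.THY

open Function Polynomial Pool.Agent.Helper11 Pool.Agent.HPow Pool.Agent.RHS

variable {p m q t : ℕ} {k : Type} [Field k]

theorem goodP_red {W : Type} [CommRing W] [IsNoetherianRing W] (g h : W) (h0 : GoodP p W)
    (h1 : GoodP p (AS1 q (W ⧸ Ideal.span {g}) (Ideal.Quotient.mk _ h))) :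
    GoodP p (AS1 q W[X] (C g * X + C h)) := by
  obtain ⟨e1⟩ := red_quot q g h
  obtain ⟨e2⟩ := red_swap q g h
  refine GoodP.of_equiv e2 (GoodP.pivot (C g) (X ^ q + X - C h) h0.polynomial ?_)
  refine GoodP.of_equiv (Ideal.quotEquivOfEq ?_) (GoodP.of_equiv e1.symm h1)
  rw [← Ideal.span_union, Set.union_comm]
  rfl

theorem clsH_goodP (hk : Setg p m q t k) : ClsH p q k (fun R _ => GoodP p R) where
  iso := fun _ _ _ _ e h => GoodP.of_equiv e h
  zero := fun R _ _ => GoodP.of_subsingleton p R
  loc := fun _ _ _ _ _ _ s _ h1 h2 => GoodP.of_away s h1 h2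
  poly := fun _ _ _ h => h.polynomial
  free := fun R S _ _ _ _ e b h => by
    haveI : Module.Free R S := Module.Free.of_basis b
    haveI : Module.Finite R S := Module.Finite.of_basis b
    refine GoodP.of_map (resG R S) e (fun x => ⟨bcG R S x, ?_⟩) h
    rw [res_bc_free b]
  asx := fun _ _ _ _ f g h1 h2 => line_good hk f g h1 h2
  red := fun _ _ _ _ g h h0 h1 => goodP_red g h h0 h1

end Pool.Agent.THY
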