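import Pool.Agent.KSS.Q1a
import Pool.Agent.KSS.Q1b
import Pool.Agent.KSS.Q3a
import Pool.Agent.KSS.Q3b
import Pool.Agent.KSS.Q3f
import Pool.Agent.KSS.Q3g
import Pool.Agent.HPow.Defs

/-!
# THY, module Fil: schemes over a field filtered by affine pieces of a given kind
-/

set_option autoImplicit false

noncomputable section

namespace Pool.Agent.THY

open CategoryTheory AlgebraicGeometry TopologicalSpace Function Pool.Agent.KSS

/-- `PFilK k P Y π T`: the closed subset `T` of the `k`-scheme `Y` has a finite filtration by closed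
subsets `∅ = T₀ ⊆ T₁ ⊆ … ⊆ T_r = T` such that `T_i ∖ T_(i-1)` is a closed subset of an affine open
subscheme `U_i` of `Y ∖ T_(i-1)` and, with a suitable structure of closed subscheme of `U_i`,
`k`-isomorphic to `Spec V` for a `k`-algebra `V` with the property `P`. -/
inductive PFilK (k : Type) [Field k] (P : (V : Type) → [CommRing V] → [Algebra k V] → Prop)
    (Y : Scheme.{0}) (π : Y ⟶ Spec (CommRingCat.of k)) : Set Y → Prop
  | empty : PFilK k P Y π ∅
  | step (T T' : Set Y) (hT : IsClosed T) (hT' : IsClosed T') (U : Y.Opens) (hU : IsAffineOpen U)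
      (V : Type) [CommRing V] [Algebra k V] (hV : P V)
      (i : Spec (CommRingCat.of V) ⟶ U.toScheme) [IsClosedImmersion i]
      (hi : i ≫ U.ι ≫ π = Spec.map (CommRingCat.ofHom (algebraMap k V)))
      (hTT' : T ⊆ T') (hTU : T ∩ U = ∅) (hr : T' \ T = Set.range (i ≫ U.ι))
      (h : PFilK k P Y π T) : PFilK k P Y π T'

section prod

variable {k : Type} [Field k] {P : (V : Type) → [CommRing V] → [Algebra k V] → Prop}

/-- the inner induction -/
theorem pfil_inner (h1 : ∀ (V V' : Type) [CommRing V] [CommRing V'] [Algebra k V] [Algebra k V'],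
      P V → P V' → P (TensorProduct k V V')) (Y Y' : Scheme.{0})
    (π : Y ⟶ Spec (CommRingCat.of k)) (π' : Y' ⟶ Spec (CommRingCat.of k))
    (T T' : Set Y) (hT : IsClosed T) (hT' : IsClosed T') (U : Y.Opens) (hU : IsAffineOpen U)
    (V : Type) [CommRing V] [Algebra k V] (hV : P V)
    (i : Spec (CommRingCat.of V) ⟶ U.toScheme) [IsClosedImmersion i]
    (hi : i ≫ U.ι ≫ π = Spec.map (CommRingCat.ofHom (algebraMap k V)))
    (hTT' : T ⊆ T') (hTU : T ∩ U = ∅) (hr : T' \ T = Set.range (i ≫ U.ι))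
    (ih : PFilK k P (Limits.pullback π π') (Limits.pullback.fst π π' ≫ π)
      (Limits.pullback.fst π π' ⁻¹' T)) (S : Set Y') (hS : PFilK k P Y' π' S) :
    IsClosed S ∧ PFilK k P (Limits.pullback π π') (Limits.pullback.fst π π' ≫ π)
      (Limits.pullback.fst π π' ⁻¹' T ∪
        (Limits.pullback.fst π π' ⁻¹' T' ∩ Limits.pullback.snd π π' ⁻¹' S)) := by
  induction hS with
  | empty =>
    refine ⟨isClosed_empty, ?_⟩
    rwa [Set.preimage_empty, Set.inter_empty, Set.union_empty]
  | step S S' hSc hSc' U' hU' V' hV' i' hi' hSS' hSU' hr' _ ih' =>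
    refine ⟨hSc', ?_⟩
    obtain ⟨hW, c, hc, hcπ, hcr⟩ := thm_Q1b k Y Y' π π' U U' V V' i i' hU hU' hi hi'
    have hcont : Continuous (Limits.pullback.fst π π') := (Limits.pullback.fst π π').continuous
    have hcont' : Continuous (Limits.pullback.snd π π') := (Limits.pullback.snd π π').continuous
    refine PFilK.step _ _ ((hT.preimage hcont).union ((hT'.preimage hcont).inter
      (hSc.preimage hcont'))) ((hT.preimage hcont).union ((hT'.preimage hcont).inter
      (hSc'.preimage hcont'))) _ hW (TensorProduct k V V') (h1 V V' hV hV') c hcπ ?_ ?_ ?_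
      ih'.2
    · refine Set.union_subset_union_right _ (Set.inter_subset_inter_right _ ?_)
      exact Set.preimage_mono hSS'
    · ext z
      simp only [Set.mem_inter_iff, Set.mem_union, Set.mem_preimage, Set.mem_empty_iff_false,
        iff_false, not_and]
      intro hz hzW
      have hz1 : Limits.pullback.fst π π' z ∈ U := hzW.1
      have hz2 : Limits.pullback.snd π π' z ∈ U' := hzW.2
      rcases hz with hz | ⟨_, hz⟩
      · have : Limits.pullback.fst π π' z ∈ T ∩ (U : Set Y) := ⟨hz, hz1⟩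
        rw [hTU] at this
        exact this
      · have : Limits.pullback.snd π π' z ∈ S ∩ (U' : Set Y') := ⟨hz, hz2⟩
        rw [hSU'] at this
        exact this
    · ext z
      rw [hcr, ← hr, ← hr']
      simp only [Set.mem_sdiff, Set.mem_union, Set.mem_inter_iff, Set.mem_preimage]
      constructor
      · rintro ⟨h | ⟨h3, h4⟩, h5⟩
        · exact (h5 (Or.inl h)).elim
        · exact ⟨⟨h3, fun h => h5 (Or.inl h)⟩, ⟨h4, fun h => h5 (Or.inr ⟨h3, h⟩)⟩⟩
      · rintro ⟨⟨h3, h4⟩, ⟨h5, h6⟩⟩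
        exact ⟨Or.inr ⟨h3, h5⟩, fun h => h.elim h4 fun h => h6 h.2⟩

theorem pfil_outer (h1 : ∀ (V V' : Type) [CommRing V] [CommRing V'] [Algebra k V] [Algebra k V'],
      P V → P V' → P (TensorProduct k V V')) (Y Y' : Scheme.{0})
    (π : Y ⟶ Spec (CommRingCat.of k)) (π' : Y' ⟶ Spec (CommRingCat.of k))
    (hY' : PFilK k P Y' π' Set.univ) (T : Set Y) (hT : PFilK k P Y π T) :
    PFilK k P (Limits.pullback π π') (Limits.pullback.fst π π' ≫ π)
      (Limits.pullback.fst π π' ⁻¹' T) := by
  induction hT with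
  | empty =>
    rw [Set.preimage_empty]
    exact PFilK.empty
  | step T T' hT hT' U hU V hV i hi hTT' hTU hr _ ih =>
    have h3 := (pfil_inner h1 Y Y' π π' T T' hT hT' U hU V hV i hi hTT' hTU hr ih
      Set.univ hY').2
    rw [Set.preimage_univ, Set.inter_univ, Set.union_eq_self_of_subset_left
      (Set.preimage_mono hTT')] at h3
    exact h3

/-- products of filtered schemes are filtered -/
theorem pfil_prod (h1 : ∀ (V V' : Type) [CommRing V] [CommRing V'] [Algebra k V] [Algebra k V'],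
      P V → P V' → P (TensorProduct k V V')) (Y Y' : Scheme.{0})
    (π : Y ⟶ Spec (CommRingCat.of k)) (π' : Y' ⟶ Spec (CommRingCat.of k))
    (hY : PFilK k P Y π Set.univ) (hY' : PFilK k P Y' π' Set.univ) :
    PFilK k P (Limits.pullback π π') (Limits.pullback.fst π π' ≫ π) Set.univ := by
  have h3 := pfil_outer h1 Y Y' π π' hY' Set.univ hY
  rwa [Set.preimage_univ] at h3

/-- a weaker property -/
theorem pfil_mono {P' : (V : Type) → [CommRing V] → [Algebra k V] → Prop}
    (h : ∀ (V : Type) [CommRing V] [Algebra k V], P V → P' V) {Y : Scheme.{0}}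
    {π : Y ⟶ Spec (CommRingCat.of k)} {T : Set Y} (hT : PFilK k P Y π T) :
    PFilK k P' Y π T := by
  induction hT with
  | empty => exact PFilK.empty
  | step T T' hT hT' U hU V hV i hi hTT' hTU hr _ ih =>
    exact PFilK.step T T' hT hT' U hU V (h V hV) i hi hTT' hTU hr ih

end prod

/-! ### closed subschemes of projective space -/

attribute [local instance] MvPolynomial.gradedAlgebra

/-- one step of the filtration of a closed subscheme of projective space -/
theorem pfil_proj {k : Type} [Field k]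
    {P : (V : Type) → [CommRing V] → [Algebra k V] → Prop} (n : ℕ) (Z : Scheme.{0})
    (i : Z ⟶ PP k n) [IsClosedImmersion i] (V : Type) [CommRing V] [Algebra k V] [IsReduced V]
    (θ : MvPolynomial (Fin n) k →ₐ[k] V) (S : Set (MvPolynomial (Fin n) k))
    (M : MvPolynomial (Fin n) k) (hV : P V) (hθ : Surjective θ) (hM : M.IsHomogeneous 1)
    (hS : ∀ f ∈ S, ∃ d, f.IsHomogeneous d) (hθM : θ M = 1) (hθS : ∀ f ∈ S, θ f = 0)
    (hker : RingHom.ker θ.toRingHom ≤ Ideal.span ({M - 1} ∪ S))
    (hrange : ∀ x : PP k n, (∀ f ∈ S, x ∈ ZL f) → x ∉ ZL M → x ∈ Set.range i)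
    (hT : PFilK k P Z (i ≫ PPπ k n) {y | (∀ f ∈ S, i y ∈ ZL f) ∧ i y ∈ ZL M}) :
    PFilK k P Z (i ≫ PPπ k n) {y | ∀ f ∈ S, i y ∈ ZL f} := by
  obtain ⟨hU, c, hc, hcπ, -, hcr⟩ := thm_Q3a k n M
    ((MvPolynomial.mem_homogeneousSubmodule _ _).2 hM) V θ hθ hθM
  have hr : ∀ x : PP k n, x ∈ Set.range (c ≫ Scheme.Opens.ι _) ↔
      (∀ f ∈ S, x ∈ ZL f) ∧ x ∉ ZL M := by
    intro x
    rw [hcr]
    constructor
    · rintro ⟨h1, h2⟩
      refine ⟨fun f hf => ?_, h1⟩
      obtain ⟨d, hd⟩ := hS f hf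
      exact h2 d f hd (hθS f hf)
    · rintro ⟨h1, h2⟩
      refine ⟨h2, fun d a hd h0 => ?_⟩
      have h3 : a ∈ Ideal.span ({M - 1} ∪ S) := hker h0
      obtain ⟨e, he⟩ := thm_Q3g k n S hS M a d hM hd h3
      have h4 : Ideal.span S ≤ x.asHomogeneousIdeal.toIdeal := by
        rw [Ideal.span_le]
        exact fun f hf => h1 f hf
      have hp : x.asHomogeneousIdeal.toIdeal.IsPrime := x.isPrime
      rcases hp.mem_or_mem (h4 he) with h5 | h5
      · exact (h2 (hp.mem_of_pow_mem e h5)).elim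
      · exact h5
  have hsub : Set.range (c ≫ Scheme.Opens.ι _) ⊆ Set.range i := by
    intro x hx
    obtain ⟨h1, h2⟩ := (hr x).1 hx
    exact hrange x h1 h2
  obtain ⟨c', hc', hcc, hcr'⟩ := thm_Q3b (PP k n) Z i _ V c hsub
  have hcont : Continuous i := i.continuous
  refine PFilK.step _ _ ?_ ?_ _ (hU.preimage i) V hV c' ?_ ?_ ?_ ?_ hT
  · exact ((q3f_closedS S).preimage hcont).inter ((q3f_closed M).preimage hcont)
  · exact (q3f_closedS S).preimage hcont
  · rw [← hcπ, ← Category.assoc, ← Category.assoc, Category.assoc c', hcc, Category.assoc]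
  · exact fun y hy => hy.1
  · ext y
    simp only [Set.mem_inter_iff, Set.mem_ofPred_eq, Set.mem_empty_iff_false, iff_false, not_and]
    intro hy hyU
    exact hyU hy.2
  · ext y
    rw [hcr', hr]
    constructor
    · rintro ⟨h1, h2⟩
      exact ⟨h1, fun h => h2 ⟨h1, h⟩⟩
    · rintro ⟨h1, h2⟩
      exact ⟨h1, fun h => h2 h.2⟩

end Pool.Agent.THY
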