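import Pool.Agent.HPow.HypB
import Pool.Agent.HPow.ASr
import Pool.Agent.HPow.Stp

/-!
# THY, module Cls: classes of rings with the closure properties of a theory with transfers

One thinks of `G R` as: `T (Spec R)` is finitely generated up to a bounded power of a number
divisible by `p`, for a theory `T` (homotopy invariance, localization, transfers).
-/

set_option autoImplicit false
set_option linter.unusedSectionVars false
set_option linter.style.haveILetI false

namespace Pool.Agent.THY

open Function Polynomial Pool.Agent.HPow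

/-- The closure properties: isomorphisms, the zero ring, localization sequence, homotopy,
free extensions of `p`-power rank, pairs of Artin-Schreier equations, and elimination of a variable
which occurs linearly in the right hand side of an Artin-Schreier equation. -/
structure ClsH (p q : ℕ) (k : Type) [Field k] (G : (R : Type) → [CommRing R] → Prop) : Prop where
  iso : ∀ (R S : Type) [CommRing R] [CommRing S], (R ≃+* S) → G R → G S
  zero : ∀ (R : Type) [CommRing R] [Subsingleton R], G R
  loc : ∀ (R V : Type) [CommRing R] [IsNoetherianRing R] [CommRing V] [Algebra R V] (s : R)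
    [IsLocalization.Away s V], G (R ⧸ Ideal.span {s}) → G V → G R
  poly : ∀ (R : Type) [CommRing R] [IsNoetherianRing R], G R → G R[X]
  free : ∀ (R S : Type) [CommRing R] [IsNoetherianRing R] [CommRing S] [Algebra R S] (e : ℕ)
    (_ : Module.Basis (Fin (p ^ e)) R S), G S → G R
  asx : ∀ (W : Type) [CommRing W] [IsNoetherianRing W] [Algebra k W] (f g : W),
    G (AS1 q W g) → (∀ c : k, c ^ q = c → G (AS1 q W (f + algebraMap k W c * g))) →
      G (V2 q W f g)
  red : ∀ (W : Type) [CommRing W] [IsNoetherianRing W] [Algebra k W] (g h : W), G W →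
    G (AS1 q (W ⧸ Ideal.span {g}) (Ideal.Quotient.mk _ h)) → G (AS1 q W[X] (C g * X + C h))

variable {p q : ℕ} {k : Type} [Field k] {G : (R : Type) → [CommRing R] → Prop}

namespace ClsH

variable (hG : ClsH p q k G)
include hG

theorem mvFin {R : Type} [CommRing R] [IsNoetherianRing R] (h : G R) (n : ℕ) :
    G (MvPolynomial (Fin n) R) := by
  induction n with
  | zero => exact hG.iso _ _ (MvPolynomial.isEmptyAlgEquiv R (Fin 0)).symm.toRingEquiv h
  | succ n ih => exact hG.iso _ _ (MvPolynomial.finSuccEquiv R n).symm.toRingEquiv (hG.poly _ ih)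

/-- one root -/
theorem spl_step {U : Type} [CommRing U] [IsNoetherianRing U] (F H : U[X])
    (hu : IsUnit (Ideal.Quotient.mk (Ideal.span {H}) F)) (hF : G (U[X] ⧸ Ideal.span {F}))
    (hH : G (U[X] ⧸ Ideal.span {H})) : G (U[X] ⧸ Ideal.span {F * H}) := by
  have hle1 : Ideal.span {F * H} ≤ Ideal.span {F} := by
    rw [Ideal.span_singleton_le_span_singleton]
    exact dvd_mul_right _ _
  have hle2 : Ideal.span {F * H} ≤ Ideal.span {H} := by
    rw [Ideal.span_singleton_le_span_singleton]
    exact dvd_mul_left _ _
  let R := U[X] ⧸ Ideal.span {F * H}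
  let V := U[X] ⧸ Ideal.span {H}
  let φ : R →+* V := Ideal.Quotient.factor hle2
  letI : Algebra R V := φ.toAlgebra
  let s : R := Ideal.Quotient.mk _ F
  haveI : IsLocalization.Away s V := by
    refine { map_units := ?_, surj := ?_, exists_of_eq := ?_ }
    · rintro ⟨_, n, rfl⟩
      show IsUnit (φ (s ^ n))
      rw [map_pow]
      exact IsUnit.pow n hu
    · intro z
      obtain ⟨z, rfl⟩ := Ideal.Quotient.mk_surjective z
      refine ⟨(Ideal.Quotient.mk _ z, 1), ?_⟩
      show Ideal.Quotient.mk _ z * φ 1 = φ (Ideal.Quotient.mk _ z)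
      rw [map_one, mul_one]
      rfl
    · intro x y hxy
      obtain ⟨x, rfl⟩ := Ideal.Quotient.mk_surjective x
      obtain ⟨y, rfl⟩ := Ideal.Quotient.mk_surjective y
      have h1 : (Ideal.Quotient.mk (Ideal.span {H}) x) = Ideal.Quotient.mk (Ideal.span {H}) y := hxy
      rw [Ideal.Quotient.mk_eq_mk_iff_sub_mem, Ideal.mem_span_singleton] at h1
      obtain ⟨c, hc⟩ := h1
      refine ⟨⟨s, 1, pow_one s⟩, ?_⟩
      show s * Ideal.Quotient.mk _ x = s * Ideal.Quotient.mk _ y
      rw [← sub_eq_zero, ← mul_sub, ← map_sub, hc]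
      show Ideal.Quotient.mk _ F * Ideal.Quotient.mk _ (H * c) = 0
      rw [← map_mul, ← mul_assoc, map_mul, Ideal.Quotient.eq_zero_iff_mem.2
        (Ideal.mem_span_singleton_self _), zero_mul]
  refine hG.loc R V s ?_ hH
  have h2 : Ideal.span {s} = (Ideal.span {F}).map (Ideal.Quotient.mk (Ideal.span {F * H})) := by
    rw [Ideal.map_span, Set.image_singleton]
  rw [h2]
  exact hG.iso _ _ (DoubleQuot.quotQuotEquivQuotOfLE hle1).symm hF

/-- a product of distinct linear factors over `k` -/
theorem split {U : Type} [CommRing U] [IsNoetherianRing U] [Algebra k U] (hU : G U)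
    (s : Finset k) (F : U[X]) (hF : F = ∏ θ ∈ s, (X - C (algebraMap k U θ))) :
    G (AdjoinRoot F) := by
  classical
  subst hF
  show G (U[X] ⧸ Ideal.span {∏ θ ∈ s, (X - C (algebraMap k U θ))})
  induction s using Finset.induction_on with
  | empty =>
    haveI : Subsingleton (U[X] ⧸ Ideal.span {∏ θ ∈ (∅ : Finset k), (X - C (algebraMap k U θ))}) := by
      rw [Ideal.Quotient.subsingleton_iff, Finset.prod_empty, Ideal.span_singleton_one]
    exact hG.zero _
  | insert θ s hθ ih =>
    rw [Finset.prod_insert hθ]
    refine hG.spl_step _ _ ?_ ?_ ih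
    · have hcop : IsCoprime (X - C (algebraMap k U θ)) (∏ η ∈ s, (X - C (algebraMap k U η))) := by
        refine IsCoprime.prod_right fun η hη => ?_
        have hne : η - θ ≠ 0 := sub_ne_zero.2 (fun h => hθ (h ▸ hη))
        have hu : IsUnit (C (algebraMap k U (η - θ)) : U[X]) :=
          ((IsUnit.mk0 _ hne).map (algebraMap k U)).map C
        obtain ⟨u, hu⟩ := hu
        refine ⟨((u⁻¹ : U[X]ˣ) : U[X]), -((u⁻¹ : U[X]ˣ) : U[X]), ?_⟩
        have h1 : ((u⁻¹ : U[X]ˣ) : U[X]) * C (algebraMap k U (η - θ)) = 1 := by
          rw [← hu, Units.inv_mul]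
        rw [map_sub, C_sub] at h1
        linear_combination h1
      obtain ⟨a, b, hab⟩ := hcop
      refine IsUnit.of_mul_eq_one (Ideal.Quotient.mk _ a) ?_
      have h2 := congrArg (Ideal.Quotient.mk
        (Ideal.span {∏ η ∈ s, (X - C (algebraMap k U η))})) hab
      rw [map_add, map_mul, map_mul, Ideal.Quotient.eq_zero_iff_mem.2
        (Ideal.mem_span_singleton_self _), mul_zero, add_zero, map_one] at h2
      rw [mul_comm]
      exact h2
    · exact hG.iso _ _ (Polynomial.quotientSpanXSubCAlgEquiv (algebraMap k U θ)).toRingEquiv.symm hU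

/-- a monic extension of degree `p ^ e` -/
theorem of_monic {R : Type} [CommRing R] [IsNoetherianRing R] (f : R[X]) (hf : f.Monic) (e : ℕ)
    (hd : f.natDegree = p ^ e) (h : G (AdjoinRoot f)) : G R := by
  cases subsingleton_or_nontrivial R with
  | inl hR => exact hG.zero R
  | inr hR =>
    let pb := AdjoinRoot.powerBasis' hf
    have hdim : pb.dim = p ^ e := by rw [AdjoinRoot.powerBasis'_dim, hd]
    exact hG.free R (AdjoinRoot f) e (pb.basis.reindex (finCongr hdim)) h

end ClsH

end Pool.Agent.THY
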