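import Pool.Agent.THY.Fil
import Pool.Agent.KSS.Q3d
import Pool.Agent.KSS.Q3e
import Pool.Agent.KSS.Q3c
import Pool.Agent.KSS.Q3

/-!
# THY, module Fermat: Fermat hypersurfaces are filtered by Hermitian pieces
-/

set_option autoImplicit false

noncomputable section

namespace Pool.Agent.THY

open CategoryTheory AlgebraicGeometry TopologicalSpace Function Pool.Agent.KSS
open Pool.Agent.KSS.Q3d Pool.Agent.HPow

/-- The `k`-algebra `V` is isomorphic to a Hermitian ring
`k[y₁, …, y_s, x₁, …, x_n] / (y_i ^ q + y_i - ∑ a_ij x_j ^ (q + 1))`, `a_ij ^ q = a_ij`. If `ev`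
holds then moreover for each `c` in `k ^ s`, `c_i ^ q = c_i`, the number of the `j` with
`∑ c_i a_ij ≠ 0` is even. -/
def IsHermk (q : ℕ) (k : Type) [Field k] (ev : Prop) (V : Type) [CommRing V] [Algebra k V] :
    Prop :=
  ∃ (s n : ℕ) (a : Fin s → Fin n → k), (∀ i j, a i j ^ q = a i j) ∧
    (ev → ∀ c : Fin s → k, (∀ i, c i ^ q = c i) → Even (Nat.card {j // ∑ i, c i * a i j ≠ 0})) ∧
    Nonempty (V ≃ₐ[k] HermRing q a)

section chart

variable {p m q t : ℕ} {k : Type} [Field k]

/-- the chart, `n = 2 j + 2 + r`, with an explicit ring -/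
theorem chartV (h3 : St_Q3c) (h : Pool.Agent.HPow.Setg p m q t k) (j r : ℕ) (z : k)
    (hz : z ^ (q + 1) = -1) :
    ∃ (θ : MvPolynomial (Fin (2 * j + 2 + r)) k →ₐ[k] VV h (ff k q j r)),
      IsReduced (VV h (ff k q j r)) ∧ Surjective θ ∧
      θ (Ef (2 * j + 2 + r) z j (by omega)) = 1 ∧
      θ (∑ i, MvPolynomial.X i ^ (q + 1)) = 0 ∧
      (∀ (a : ℕ) (ha : a < j), θ (Ef (2 * j + 2 + r) z a (by omega)) = 0) ∧
      RingHom.ker θ.toRingHom ≤ Ideal.span
        ({Ef (2 * j + 2 + r) z j (by omega) - 1, ∑ i, MvPolynomial.X i ^ (q + 1)} ∪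
          Set.range fun a : Fin j => Ef (2 * j + 2 + r) z a (by omega)) := by
  classical
  have hz0 : z ≠ 0 := by
    rintro rfl
    rw [zero_pow (by omega)] at hz
    exact one_ne_zero (neg_eq_zero.mp hz.symm)
  set f := ff k q j r with hf
  set y := vy h f with hy
  set x := vx h f with hx
  -- the values of the variables
  let val : Fin (2 * j + 2 + r) → VV h f := fun i =>
    if h1 : (i : ℕ) < 2 * j then
      if (i : ℕ) % 2 = 0 then algebraMap k _ z * x ⟨i / 2, by omega⟩ else x ⟨i / 2, by omega⟩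
    else if h2 : (i : ℕ) = 2 * j then 1 + y
    else if h3 : (i : ℕ) = 2 * j + 1 then algebraMap k _ z⁻¹ * y
    else x ⟨i - (j + 2), by omega⟩
  have val_even : ∀ a (ha : a < j), val ⟨2 * a, by omega⟩ = algebraMap k _ z * x ⟨a, by omega⟩ := by
    intro a ha
    have e : 2 * a / 2 = a := by omega
    simp only [val]
    rw [dif_pos (by omega), if_pos (by omega)]
    congr 2
    exact Fin.ext e
  have val_odd : ∀ a (ha : a < j), val ⟨2 * a + 1, by omega⟩ = x ⟨a, by omega⟩ := by
    intro a ha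
    have e : (2 * a + 1) / 2 = a := by omega
    simp only [val]
    rw [dif_pos (by omega), if_neg (by omega)]
    congr 1
    exact Fin.ext e
  have val_j : val ⟨2 * j, by omega⟩ = 1 + y := by
    simp only [val]
    rw [dif_neg (by omega), dif_pos trivial]
  have val_j1 : val ⟨2 * j + 1, by omega⟩ = algebraMap k _ z⁻¹ * y := by
    simp only [val]
    rw [dif_neg (by omega), dif_neg (by omega), dif_pos trivial]
  have val_r : ∀ b (hb : b < r), val ⟨2 * j + 2 + b, by omega⟩ = x ⟨j + b, by omega⟩ := by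
    intro b hb
    have e : 2 * j + 2 + b - (j + 2) = j + b := by omega
    simp only [val]
    rw [dif_neg (by omega), dif_neg (by omega), dif_neg (by omega)]
    congr 1
    exact Fin.ext e
  let θ : MvPolynomial (Fin (2 * j + 2 + r)) k →ₐ[k] VV h f := MvPolynomial.aeval val
  have θX : ∀ i, θ (MvPolynomial.X i) = val i := fun i => MvPolynomial.aeval_X _ _
  have θC : ∀ c, θ (MvPolynomial.C c) = algebraMap k _ c := fun c => MvPolynomial.aeval_C _ _
  have hzi : ∀ (B : Type) [CommRing B] [Algebra k B],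
      algebraMap k B z * algebraMap k B z⁻¹ = 1 := by
    intro B _ _
    rw [← map_mul, mul_inv_cancel₀ hz0, map_one]
  have hzq : ∀ (B : Type) [CommRing B] [Algebra k B], algebraMap k B z ^ (q + 1) = -1 := by
    intro B _ _
    rw [← map_pow, hz, map_neg, map_one]
  have hziq : ∀ (B : Type) [CommRing B] [Algebra k B], algebraMap k B z⁻¹ ^ (q + 1) = -1 := by
    intro B _ _
    have h1 : (algebraMap k B z * algebraMap k B z⁻¹) ^ (q + 1) = 1 := by rw [hzi, one_pow]
    rw [mul_pow, hzq] at h1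
    linear_combination -h1
  have hpow : ∀ (B : Type) [CommRing B] [Algebra k B] (w : B),
      (1 + w) ^ (q + 1) - w ^ (q + 1) = 1 + w + w ^ q := by
    intro B _ _ w
    rw [pow_succ, h.add_pow, one_pow]
    ring
  -- the section
  let sval : Fin (j + r) → MvPolynomial (Fin (2 * j + 2 + r)) k := fun b =>
    if h1 : (b : ℕ) < j then MvPolynomial.X ⟨2 * b + 1, by omega⟩
    else MvPolynomial.X ⟨b + (j + 2), by omega⟩
  have sval_a : ∀ a (ha : a < j), sval ⟨a, by omega⟩ = MvPolynomial.X ⟨2 * a + 1, by omega⟩ := by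
    intro a ha
    simp only [sval]
    rw [dif_pos ha]
  have sval_b : ∀ b (hb : b < r), sval ⟨j + b, by omega⟩ =
      MvPolynomial.X ⟨2 * j + 2 + b, by omega⟩ := by
    intro b hb
    have e : j + b + (j + 2) = 2 * j + 2 + b := by omega
    simp only [sval]
    rw [dif_neg (by omega)]
    congr 1
    exact Fin.ext e
  have hcase : ∀ b : Fin (j + r), (∃ (a : ℕ) (ha : a < j), b = ⟨a, by omega⟩) ∨
      ∃ (c : ℕ) (hc : c < r), b = ⟨j + c, by omega⟩ := by
    intro b
    by_cases hb : (b : ℕ) < j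
    · exact Or.inl ⟨b, hb, rfl⟩
    · exact Or.inr ⟨b - j, by omega, Fin.ext (by simp only []; omega)⟩
  let σ : MvPolynomial (Fin 1 ⊕ Fin (j + r)) k →ₐ[k] MvPolynomial (Fin (2 * j + 2 + r)) k :=
    MvPolynomial.aeval (Sum.elim
      (fun _ => MvPolynomial.C z * MvPolynomial.X ⟨2 * j + 1, by omega⟩) sval)
  have σy : ∀ i, σ (MvPolynomial.X (Sum.inl i)) =
      MvPolynomial.C z * MvPolynomial.X ⟨2 * j + 1, by omega⟩ := by
    intro i
    change MvPolynomial.aeval _ _ = _
    rw [MvPolynomial.aeval_X, Sum.elim_inl]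
  have σx : ∀ b, σ (MvPolynomial.X (Sum.inr b)) = sval b := by
    intro b
    change MvPolynomial.aeval _ _ = _
    rw [MvPolynomial.aeval_X, Sum.elim_inr]
  have hθσ : ∀ g, θ (σ g) = Ideal.Quotient.mk _ g := by
    have h1 : θ.comp σ = Ideal.Quotient.mkₐ k _ := by
      apply MvPolynomial.algHom_ext
      rintro (i | b)
      · obtain rfl : i = 0 := Subsingleton.elim _ _
        rw [AlgHom.comp_apply, σy, map_mul, θC, θX, val_j1, ← mul_assoc, hzi, one_mul]
        rfl
      · rw [AlgHom.comp_apply, σx]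
        rcases hcase b with ⟨a, ha, rfl⟩ | ⟨c, hc, rfl⟩
        · rw [sval_a a ha, θX, val_odd a ha]
          rfl
        · rw [sval_b c hc, θX, val_r c hc]
          rfl
    exact fun g => DFunLike.congr_fun h1 g
  have hEf : ∀ (a : ℕ) (ha : a ≤ j), Ef (2 * j + 2 + r) z a (by omega) =
      MvPolynomial.X ⟨2 * a, by omega⟩ - MvPolynomial.C z * MvPolynomial.X ⟨2 * a + 1, by omega⟩ := by
    intro a ha
    unfold Ef
    rw [dif_pos (by omega)]
  have hff : ∀ {B : Type} [CommRing B] [Algebra k B] (ξ : Fin (j + r) → B),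
      MvPolynomial.aeval ξ f = -1 - ∑ b : Fin r, ξ (Fin.natAdd j b) ^ (q + 1) := by
    intro B _ _ ξ
    rw [hf]
    unfold ff
    rw [map_sub, map_neg, map_one, map_sum]
    congr 1
    refine Finset.sum_congr rfl fun b _ => ?_
    rw [map_pow, MvPolynomial.aeval_X]
  refine ⟨θ, V_red h f h3, fun v => ?_, ?_, ?_, ?_, ?_⟩
  · obtain ⟨g, rfl⟩ := Ideal.Quotient.mk_surjective v
    exact ⟨σ g, hθσ g⟩
  · rw [hEf j le_rfl, map_sub, map_mul, θC, θX, θX, val_j, val_j1, ← mul_assoc, hzi, one_mul]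
    ring
  · rw [map_sum]
    have h1 : ∀ i, θ (MvPolynomial.X i ^ (q + 1)) = val i ^ (q + 1) := fun i => by
      rw [map_pow, θX]
    rw [Finset.sum_congr rfl fun i _ => h1 i, sum_split j r (fun i => val i ^ (q + 1))]
    · have h2 := V_rel h f
      rw [hff] at h2
      have h4 : ∑ b : Fin r, val ⟨2 * j + 2 + b, by omega⟩ ^ (q + 1) =
          ∑ b : Fin r, vx h f (Fin.natAdd j b) ^ (q + 1) :=
        Finset.sum_congr rfl fun b _ => by rw [val_r b b.2]; rfl
      rw [h4, val_j, val_j1, mul_pow, hziq]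
      have h5 := hpow (VV h f) y
      linear_combination h5 + h2
    · intro a ha
      rw [val_even a ha, val_odd a ha, mul_pow, hzq]
      ring
  · intro a ha
    rw [hEf a ha.le, map_sub, map_mul, θC, θX, θX, val_even a ha, val_odd a ha, sub_self]
  · -- the kernel
    set I : Ideal (MvPolynomial (Fin (2 * j + 2 + r)) k) := Ideal.span
        ({Ef (2 * j + 2 + r) z j (by omega) - 1, ∑ i, MvPolynomial.X i ^ (q + 1)} ∪
          Set.range fun a : Fin j => Ef (2 * j + 2 + r) z a (by omega)) with hI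
    let π := Ideal.Quotient.mkₐ k I
    have hπ : ∀ g ∈ I, π g = 0 := fun g hg => Ideal.Quotient.eq_zero_iff_mem.mpr hg
    have πC : ∀ c, π (MvPolynomial.C c) = algebraMap k _ c := fun c => rfl
    have e1 : π (MvPolynomial.X ⟨2 * j, by omega⟩) =
        1 + algebraMap k _ z * π (MvPolynomial.X ⟨2 * j + 1, by omega⟩) := by
      have h1 := hπ _ (Ideal.subset_span (Or.inl (Or.inl rfl)))
      rw [hEf j le_rfl, map_sub, map_sub, map_mul, map_one, πC] at h1
      linear_combination h1
    have e2 : ∀ a (ha : a < j), π (MvPolynomial.X ⟨2 * a, by omega⟩) =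
        algebraMap k _ z * π (MvPolynomial.X ⟨2 * a + 1, by omega⟩) := by
      intro a ha
      have h1 : π (Ef (2 * j + 2 + r) z a (by omega)) = 0 :=
        hπ _ (Ideal.subset_span (Or.inr ⟨⟨a, ha⟩, rfl⟩))
      rw [hEf a ha.le, map_sub, map_mul, πC] at h1
      linear_combination h1
    have e3 : ∑ i, π (MvPolynomial.X i) ^ (q + 1) = 0 := by
      have h1 := hπ _ (Ideal.subset_span (Or.inl (Or.inr rfl)))
      rw [map_sum] at h1
      rw [← h1]
      exact Finset.sum_congr rfl fun i _ => (map_pow _ _ _).symm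
    rw [sum_split j r (fun i => π (MvPolynomial.X i) ^ (q + 1)) (fun a ha => by
      rw [e2 a ha, mul_pow, hzq]
      ring)] at e3
    obtain ⟨ψ, hψ⟩ := V_lift h f (π.comp σ) (by
      rw [hff]
      have h4 : ∑ b : Fin r, (π.comp σ) (MvPolynomial.X (Sum.inr (Fin.natAdd j b))) ^ (q + 1) =
          ∑ b : Fin r, π (MvPolynomial.X ⟨2 * j + 2 + b, by omega⟩) ^ (q + 1) :=
        Finset.sum_congr rfl fun b _ => by
          rw [AlgHom.comp_apply, σx]
          congr 2
          exact sval_b b b.2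
      rw [h4, AlgHom.comp_apply, σy, map_mul, πC]
      rw [e1] at e3
      have h5 := hpow _ (algebraMap k _ z * π (MvPolynomial.X ⟨2 * j + 1, by omega⟩))
      have h6 : (algebraMap k (MvPolynomial (Fin (2 * j + 2 + r)) k ⧸ I) z *
          π (MvPolynomial.X ⟨2 * j + 1, by omega⟩)) ^ (q + 1) =
          -π (MvPolynomial.X ⟨2 * j + 1, by omega⟩) ^ (q + 1) := by
        rw [mul_pow, hzq]
        ring
      linear_combination e3 - h5 - h6)
    have hψθ : ψ.comp θ = π := by
      apply MvPolynomial.algHom_ext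
      intro i
      rw [AlgHom.comp_apply, θX]
      have ψy : ψ y = algebraMap k _ z * π (MvPolynomial.X ⟨2 * j + 1, by omega⟩) := by
        have h1 := hψ (MvPolynomial.X (Sum.inl 0))
        rw [AlgHom.comp_apply, σy, map_mul, πC] at h1
        exact h1
      have ψx : ∀ b, ψ (x b) = π (sval b) := by
        intro b
        have h1 := hψ (MvPolynomial.X (Sum.inr b))
        rw [AlgHom.comp_apply, σx] at h1
        exact h1
      by_cases hi : (i : ℕ) < 2 * j
      · rcases Nat.mod_two_eq_zero_or_one (i : ℕ) with hm | hm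
        · obtain ⟨a, hia⟩ : ∃ a, (i : ℕ) = 2 * a := ⟨i / 2, by omega⟩
          have ha : a < j := by omega
          have ei : i = ⟨2 * a, by omega⟩ := Fin.ext hia
          rw [ei]
          rw [val_even _ ha, map_mul, AlgHom.commutes, ψx, sval_a _ ha, e2 _ ha]
        · obtain ⟨a, hia⟩ : ∃ a, (i : ℕ) = 2 * a + 1 := ⟨i / 2, by omega⟩
          have ha : a < j := by omega
          have ei : i = ⟨2 * a + 1, by omega⟩ := Fin.ext hia
          rw [ei]
          rw [val_odd _ ha, ψx, sval_a _ ha]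
      · by_cases hi2 : (i : ℕ) = 2 * j
        · have ei : i = ⟨2 * j, by omega⟩ := Fin.ext hi2
          rw [ei, val_j, map_add, map_one, ψy, e1]
        · by_cases hi3 : (i : ℕ) = 2 * j + 1
          · have ei : i = ⟨2 * j + 1, by omega⟩ := Fin.ext hi3
            rw [ei, val_j1, map_mul, AlgHom.commutes, ψy, ← mul_assoc, mul_comm (algebraMap k _ z⁻¹),
              hzi, one_mul]
          · obtain ⟨b, hib⟩ : ∃ b, (i : ℕ) = 2 * j + 2 + b := ⟨i - (2 * j + 2), by omega⟩
            have hb : b < r := by omega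
            have ei : i = ⟨2 * j + 2 + b, by omega⟩ := Fin.ext hib
            rw [ei]
            rw [val_r _ hb, ψx, sval_b _ hb]
    intro g hg
    have h1 : θ g = 0 := hg
    have h2 : π g = 0 := by
      rw [← hψθ, AlgHom.comp_apply, h1, map_zero]
    exact Ideal.Quotient.eq_zero_iff_mem.mp h2

end chart

section iso

variable {p m q t : ℕ} {k : Type} [Field k]

/-- the coefficients of the pieces of the Fermat hypersurface -/
def aF (k : Type) [Field k] (j r : ℕ) : Fin 1 → Fin (j + r) → k :=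
  fun _ i => if (i : ℕ) < j then 0 else -1

theorem aF_cast (j r : ℕ) (i : Fin 1) (b : Fin j) : aF k j r i (Fin.castAdd r b) = 0 :=
  if_pos b.2

theorem aF_nat (j r : ℕ) (i : Fin 1) (b : Fin r) : aF k j r i (Fin.natAdd j b) = -1 :=
  if_neg (by simp)

theorem aF_sum {B : Type} [CommRing B] [Algebra k B] (q j r : ℕ) (ξ : Fin (j + r) → B) :
    ∑ i, algebraMap k B (aF k j r 0 i) * ξ i ^ (q + 1) =
      - ∑ b : Fin r, ξ (Fin.natAdd j b) ^ (q + 1) := by
  rw [Fin.sum_univ_add, Finset.sum_eq_zero fun b _ => ?_, zero_add, ← Finset.sum_neg_distrib]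
  · refine Finset.sum_congr rfl fun b _ => ?_
    rw [aF_nat, map_neg, map_one, neg_one_mul]
  · rw [aF_cast, map_zero, zero_mul]

theorem ff_aeval {B : Type} [CommRing B] [Algebra k B] (q j r : ℕ) (ξ : Fin (j + r) → B) :
    MvPolynomial.aeval ξ (ff k q j r) = -1 - ∑ b : Fin r, ξ (Fin.natAdd j b) ^ (q + 1) := by
  unfold ff
  rw [map_sub, map_neg, map_one, map_sum]
  congr 1
  refine Finset.sum_congr rfl fun b _ => ?_
  rw [map_pow, MvPolynomial.aeval_X]

/-- the pieces are Hermitian rings -/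
theorem iso_V (h : Setg p m q t k) (j r : ℕ) :
    Nonempty (VV h (ff k q j r) ≃ₐ[k] HermRing q (aF k j r)) := by
  obtain ⟨τ, hτ⟩ := h.exists_tau
  have hq := h.q_two_le
  have hτB : ∀ (B : Type) [CommRing B] [Algebra k B],
      algebraMap k B τ ^ q + algebraMap k B τ = 1 := by
    intro B _ _
    rw [← map_pow, ← map_add, add_comm, hτ, map_one]
  let Y : HermRing q (aF k j r) := Ideal.Quotient.mk _ (MvPolynomial.X (Sum.inl 0))
  let Z : Fin (j + r) → HermRing q (aF k j r) :=
    fun b => Ideal.Quotient.mk _ (MvPolynomial.X (Sum.inr b))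
  have hYZ : Y ^ q + Y = - ∑ b : Fin r, Z (Fin.natAdd j b) ^ (q + 1) := by
    rw [← aF_sum (k := k) q j r Z]
    have h1 : Ideal.Quotient.mk (Ideal.span (Set.range fun i : Fin 1 =>
        MvPolynomial.X (Sum.inl i) ^ q + MvPolynomial.X (Sum.inl i) -
          ∑ b, MvPolynomial.C (aF k j r i b) * MvPolynomial.X (Sum.inr b) ^ (q + 1)))
        (MvPolynomial.X (Sum.inl 0) ^ q + MvPolynomial.X (Sum.inl 0) -
          ∑ b, MvPolynomial.C (aF k j r 0 b) * MvPolynomial.X (Sum.inr b) ^ (q + 1)) = 0 :=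
      Ideal.Quotient.eq_zero_iff_mem.mpr (Ideal.subset_span ⟨0, rfl⟩)
    rw [map_sub, map_add, map_pow, sub_eq_zero, map_sum] at h1
    refine h1.trans (Finset.sum_congr rfl fun b _ => ?_)
    rw [map_mul, map_pow]
    rfl
  obtain ⟨F, hF⟩ := V_lift h (ff k q j r) (B := HermRing q (aF k j r))
    (MvPolynomial.aeval (Sum.elim (fun _ : Fin 1 => Y - algebraMap k (HermRing q (aF k j r)) τ)
      Z)) (by
      rw [MvPolynomial.aeval_X, Sum.elim_inl, h.sub_pow, ff_aeval]
      have h2 : ∑ b : Fin r, (MvPolynomial.aeval (R := k) (Sum.elim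
          (fun _ : Fin 1 => Y - algebraMap k (HermRing q (aF k j r)) τ) Z)
            (MvPolynomial.X (Sum.inr (Fin.natAdd j b)))) ^ (q + 1) =
          ∑ b : Fin r, Z (Fin.natAdd j b) ^ (q + 1) := by
        refine Finset.sum_congr rfl fun b _ => ?_
        rw [MvPolynomial.aeval_X, Sum.elim_inr]
      rw [h2]
      have h3 := hτB (HermRing q (aF k j r))
      linear_combination hYZ - h3)
  have hFy : F (vy h (ff k q j r)) = Y - algebraMap k _ τ := by
    refine (hF _).trans ?_
    rw [MvPolynomial.aeval_X, Sum.elim_inl]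
  have hFx : ∀ b, F (vx h (ff k q j r) b) = Z b := by
    intro b
    refine (hF _).trans ?_
    rw [MvPolynomial.aeval_X, Sum.elim_inr]
  let σ : MvPolynomial (Fin 1 ⊕ Fin (j + r)) k →ₐ[k] VV h (ff k q j r) :=
    MvPolynomial.aeval (Sum.elim (fun _ : Fin 1 => vy h (ff k q j r) + algebraMap k _ τ)
      (vx h (ff k q j r)))
  have hσ : ∀ i : Fin 1, σ (MvPolynomial.X (Sum.inl i) ^ q + MvPolynomial.X (Sum.inl i) -
      ∑ b, MvPolynomial.C (aF k j r i b) * MvPolynomial.X (Sum.inr b) ^ (q + 1)) = 0 := by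
    intro i
    obtain rfl : i = 0 := Subsingleton.elim _ _
    have h1 := V_rel h (ff k q j r)
    rw [ff_aeval] at h1
    have h2 : σ (∑ b, MvPolynomial.C (aF k j r 0 b) * MvPolynomial.X (Sum.inr b) ^ (q + 1)) =
        - ∑ b : Fin r, vx h (ff k q j r) (Fin.natAdd j b) ^ (q + 1) := by
      rw [← aF_sum (k := k) q j r (vx h (ff k q j r)), map_sum]
      refine Finset.sum_congr rfl fun b _ => ?_
      show MvPolynomial.aeval _ _ = _
      rw [map_mul, map_pow, MvPolynomial.aeval_C, MvPolynomial.aeval_X, Sum.elim_inr]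
    rw [map_sub, h2, map_add, map_pow]
    show (MvPolynomial.aeval _ _) ^ q + MvPolynomial.aeval _ _ - _ = _
    rw [MvPolynomial.aeval_X, Sum.elim_inl, h.add_pow]
    linear_combination h1 + hτB (VV h (ff k q j r))
  let G : HermRing q (aF k j r) →ₐ[k] VV h (ff k q j r) := Ideal.Quotient.liftₐ _ σ (by
    intro g hg
    have h1 : Ideal.span (Set.range fun i : Fin 1 =>
        MvPolynomial.X (Sum.inl i) ^ q + MvPolynomial.X (Sum.inl i) -
          ∑ b, MvPolynomial.C (aF k j r i b) * MvPolynomial.X (Sum.inr b) ^ (q + 1)) ≤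
        RingHom.ker σ.toRingHom := by
      rw [Ideal.span_le]
      rintro _ ⟨i, rfl⟩
      exact hσ i
    exact h1 hg)
  have hGy : G Y = vy h (ff k q j r) + algebraMap k _ τ := by
    show σ (MvPolynomial.X (Sum.inl 0)) = _
    show MvPolynomial.aeval _ _ = _
    rw [MvPolynomial.aeval_X, Sum.elim_inl]
  have hGx : ∀ b, G (Z b) = vx h (ff k q j r) b := by
    intro b
    show σ (MvPolynomial.X (Sum.inr b)) = _
    show MvPolynomial.aeval _ _ = _
    rw [MvPolynomial.aeval_X, Sum.elim_inr]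
  refine ⟨AlgEquiv.ofAlgHom F G ?_ ?_⟩
  · apply Ideal.Quotient.algHom_ext
    apply MvPolynomial.algHom_ext
    rintro (i | b)
    · obtain rfl : i = 0 := Subsingleton.elim _ _
      show F (G Y) = Y
      rw [hGy, map_add, hFy, AlgHom.commutes]
      ring
    · show F (G (Z b)) = Z b
      rw [hGx, hFx]
  · apply V_ext
    · show G (F _) = _
      rw [hFy, map_sub, hGy, AlgHom.commutes]
      show _ = vy h (ff k q j r)
      ring
    · intro b
      show G (F _) = _
      rw [hFx, hGx]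
      rfl

theorem herm_V (h : Setg p m q t k) (j r : ℕ) (ev : Prop) (hev : ev → Even r) :
    IsHermk q k ev (VV h (ff k q j r)) := by
  have hq := h.q_two_le
  refine ⟨1, j + r, aF k j r, fun i b => ?_, fun he c _ => ?_, iso_V h j r⟩
  · unfold aF
    split_ifs
    · exact zero_pow (by omega)
    · have h1 := h.neg_pow (B := k) (1 : k)
      rw [one_pow] at h1
      exact h1
  · by_cases hc : c 0 = 0
    · have h1 : IsEmpty {b // ∑ i, c i * aF k j r i b ≠ 0} := by
        refine ⟨fun b => b.2 ?_⟩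
        rw [Fin.sum_univ_one, hc, zero_mul]
      rw [Nat.card_of_isEmpty]
      exact ⟨0, rfl⟩
    · have e : Fin r ≃ {b // ∑ i, c i * aF k j r i b ≠ 0} := Equiv.ofBijective
        (fun b => ⟨Fin.natAdd j b, by
          rw [Fin.sum_univ_one, aF_nat]
          exact mul_ne_zero hc (neg_ne_zero.2 one_ne_zero)⟩) (by
        constructor
        · intro b b' hb
          have h1 := congrArg Subtype.val hb
          exact Fin.natAdd_injective _ _ h1
        · rintro ⟨b, hb⟩
          by_cases hbj : (b : ℕ) < j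
          · refine (hb ?_).elim
            rw [Fin.sum_univ_one]
            unfold aF
            rw [if_pos hbj, mul_zero]
          · refine ⟨⟨b - j, by omega⟩, Subtype.ext (Fin.ext ?_)⟩
            show j + ((b : ℕ) - j) = b
            omega)
      rw [← Nat.card_congr e, Nat.card_eq_fintype_card, Fintype.card_fin]
      exact hev he

/-- polynomial rings are Hermitian rings -/
theorem herm_mv (k : Type) [Field k] (q N : ℕ) (ev : Prop) :
    IsHermk q k ev (MvPolynomial (Fin N) k) := by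
  refine ⟨0, N, Fin.elim0, fun i => i.elim0, fun _ c _ => ?_, ⟨?_⟩⟩
  · have h1 : IsEmpty {b : Fin N // ∑ i : Fin 0, c i * (Fin.elim0 i : Fin N → k) b ≠ 0} := by
      exact ⟨fun b => b.2 (Finset.sum_eq_zero fun i _ => i.elim0)⟩
    rw [Nat.card_of_isEmpty]
    exact ⟨0, rfl⟩
  · have h : (⊥ : Ideal (MvPolynomial (Fin 0 ⊕ Fin N) k)) =
        Ideal.span (Set.range fun i : Fin 0 =>
          MvPolynomial.X (Sum.inl i) ^ q + MvPolynomial.X (Sum.inl i) -
          ∑ b, MvPolynomial.C ((Fin.elim0 i : Fin N → k) b) *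
            MvPolynomial.X (Sum.inr b) ^ (q + 1)) := by
      rw [Set.range_eq_empty, Ideal.span_empty]
    exact ((MvPolynomial.renameEquiv k (Equiv.emptySum (Fin 0) (Fin N)).symm).trans
      (AlgEquiv.quotientBot k (MvPolynomial (Fin 0 ⊕ Fin N) k)).symm).trans
      (Ideal.quotientEquivAlgOfEq k h)

end iso

section fil

attribute [local instance] MvPolynomial.gradedAlgebra

/-- the charts of the first kind -/
theorem chartA {p m q t : ℕ} {k : Type} [Field k] (h : Setg p m q t k) (n : ℕ) (z : k)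
    (hz : z ^ (q + 1) = -1) (j : ℕ) (hj : 2 * j + 1 < n) :
    ∃ (V : Type) (_ : CommRing V) (_ : Algebra k V) (θ : MvPolynomial (Fin n) k →ₐ[k] V),
      IsHermk q k (Even n) V ∧ IsReduced V ∧ Surjective θ ∧
      θ (Ef n z j (by omega)) = 1 ∧ θ (∑ i, MvPolynomial.X i ^ (q + 1)) = 0 ∧
      (∀ (a : ℕ) (ha : a < j), θ (Ef n z a (by omega)) = 0) ∧
      RingHom.ker θ.toRingHom ≤ Ideal.span
        ({Ef n z j (by omega) - 1, ∑ i, MvPolynomial.X i ^ (q + 1)} ∪
          Set.range fun a : Fin j => Ef n z a (by omega)) := by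
  obtain ⟨r, rfl⟩ : ∃ r, n = 2 * j + 2 + r := ⟨n - (2 * j + 2), by omega⟩
  obtain ⟨θ, h1, h2, h3, h4, h5, h6⟩ := chartV thm_Q3c h j r z hz
  refine ⟨VV h (ff k q j r), inferInstance, inferInstance, θ, herm_V h j r _ fun hn => ?_, h1, h2,
    h3, h4, h5, h6⟩
  rw [Nat.even_add] at hn
  exact hn.1 ⟨j + 1, by ring⟩

/-- the charts of the second kind -/
theorem chartB (k : Type) [Field k] (q : ℕ) (n : ℕ) (z : k)
    (hz : z ^ (q + 1) = -1) (ev : Prop) (j : ℕ) (hj : 2 * j + 1 < n) :
    ∃ (θ : MvPolynomial (Fin n) k →ₐ[k] MvPolynomial (Fin (n / 2 - (j + 1))) k),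
      IsHermk q k ev (MvPolynomial (Fin (n / 2 - (j + 1))) k) ∧
      IsReduced (MvPolynomial (Fin (n / 2 - (j + 1))) k) ∧ Surjective θ ∧
      θ (MvPolynomial.X ⟨2 * j + 1, hj⟩) = 1 ∧ θ (∑ i, MvPolynomial.X i ^ (q + 1)) = 0 ∧
      (∀ (a : ℕ) (ha : 2 * a < n), θ (Ef n z a ha) = 0) ∧
      (∀ (a : ℕ) (ha : a < j), θ (MvPolynomial.X ⟨2 * a + 1, by omega⟩) = 0) ∧
      RingHom.ker θ.toRingHom ≤ Ideal.span
        ({MvPolynomial.X ⟨2 * j + 1, hj⟩ - 1} ∪
          {f | ∃ (a : ℕ) (ha : 2 * a < n), f = Ef n z a ha} ∪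
          Set.range fun a : Fin j => MvPolynomial.X (⟨2 * a + 1, by omega⟩ : Fin n)) := by
  set N : ℕ := n / 2 - (j + 1) with hN
  let θ : MvPolynomial (Fin n) k →ₐ[k] MvPolynomial (Fin N) k :=
    MvPolynomial.aeval fun i => Q3e_G k n j z i
  let σ : MvPolynomial (Fin N) k →ₐ[k] MvPolynomial (Fin n) k :=
    MvPolynomial.aeval fun b => MvPolynomial.X ⟨2 * (j + 1 + b) + 1, by have := b.2; omega⟩
  have hθX : ∀ i : Fin n, θ (MvPolynomial.X i) = Q3e_G k n j z i := fun i =>
    MvPolynomial.aeval_X _ _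
  have hσX : ∀ b : Fin N, σ (MvPolynomial.X b) =
      MvPolynomial.X ⟨2 * (j + 1 + b) + 1, by have := b.2; omega⟩ := fun b =>
    MvPolynomial.aeval_X _ _
  have hhX : ∀ b : Fin N, Q3e_h k n j (j + 1 + b) = MvPolynomial.X b := by
    intro b
    have hb := b.2
    unfold Q3e_h
    rw [if_neg (by omega), if_neg (by omega), dif_pos (by omega)]
    congr 1
    ext
    show j + 1 + (b : ℕ) - (j + 1) = b
    omega
  have hθσ : θ.comp σ = AlgHom.id k _ := by
    refine MvPolynomial.algHom_ext fun b => ?_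
    rw [AlgHom.comp_apply, hσX, hθX]
    show Q3e_G k n j z (2 * (j + 1 + b) + 1) = _
    rw [Q3e_G_odd, hhX]
    rfl
  have hpow : ∀ a, (Q3e_G k n j z (2 * a)) ^ (q + 1) + (Q3e_G k n j z (2 * a + 1)) ^ (q + 1) =
      0 := by
    intro a
    rw [Q3e_G_even, Q3e_G_odd, mul_pow, ← map_pow, hz, map_neg, map_one]
    ring
  refine ⟨θ, herm_mv k q _ ev, inferInstance, ?_, ?_, ?_, ?_, ?_, ?_⟩
  · intro w
    exact ⟨σ w, DFunLike.congr_fun hθσ w⟩
  · rw [hθX]
    show Q3e_G k n j z (2 * j + 1) = 1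
    rw [Q3e_G_odd]
    unfold Q3e_h
    rw [if_neg (by omega), if_pos rfl]
  · rw [map_sum]
    simp only [map_pow, hθX]
    rw [Fin.sum_univ_eq_sum_range (fun i => Q3e_G k n j z i ^ (q + 1)) n]
    rcases Nat.even_or_odd' n with ⟨m, hm | hm⟩
    · have h2 : Finset.range n = Finset.range (2 * m) := by rw [hm]
      rw [h2, Q3e_sum]
      exact Finset.sum_eq_zero fun a _ => hpow a
    · have h1 : Q3e_G k n j z (2 * m) = 0 := by
        rw [Q3e_G_even, Q3e_h_zero k n j hj m (by omega), mul_zero]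
      have h2 : Finset.range n = Finset.range (2 * m + 1) := by rw [hm]
      rw [h2, Finset.sum_range_succ, Q3e_sum, h1, zero_pow (by omega), add_zero]
      exact Finset.sum_eq_zero fun a _ => hpow a
  · intro a ha
    unfold Ef
    split_ifs with h1
    · rw [map_sub, map_mul, hθX, hθX]
      show Q3e_G k n j z (2 * a) - θ (MvPolynomial.C z) * Q3e_G k n j z (2 * a + 1) = 0
      have h2 : θ (MvPolynomial.C z) = MvPolynomial.C z := θ.commutes z
      rw [Q3e_G_even, Q3e_G_odd, h2, sub_self]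
    · rw [hθX]
      show Q3e_G k n j z (2 * a) = 0
      rw [Q3e_G_even, Q3e_h_zero k n j hj a (by omega), mul_zero]
  · intro a ha
    rw [hθX]
    show Q3e_G k n j z (2 * a + 1) = 0
    rw [Q3e_G_odd]
    unfold Q3e_h
    rw [if_pos ha]
  · set J : Ideal (MvPolynomial (Fin n) k) := Ideal.span
        ({MvPolynomial.X ⟨2 * j + 1, hj⟩ - 1} ∪
          {f | ∃ (a : ℕ) (ha : 2 * a < n), f = Ef n z a ha} ∪
          Set.range fun a : Fin j => MvPolynomial.X (⟨2 * a + 1, by omega⟩ : Fin n)) with hJ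
    have hodd : ∀ (a : ℕ) (ha : 2 * a + 1 < n),
        (Ideal.Quotient.mkₐ k J) (MvPolynomial.X ⟨2 * a + 1, ha⟩) =
          (Ideal.Quotient.mkₐ k J) (σ (Q3e_h k n j a)) := by
      intro a ha
      rcases lt_trichotomy a j with h | h | h
      · have h1 : Q3e_h k n j a = 0 := by
          unfold Q3e_h
          rw [if_pos h]
        rw [h1, map_zero, map_zero]
        refine Ideal.Quotient.eq_zero_iff_mem.mpr (Ideal.subset_span (Or.inr ⟨⟨a, h⟩, rfl⟩))
      · subst h
        have h1 : Q3e_h k n a a = 1 := by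
          unfold Q3e_h
          rw [if_neg (by omega), if_pos rfl]
        rw [h1, map_one]
        refine Ideal.Quotient.eq.mpr (Ideal.subset_span (Or.inl (Or.inl rfl)))
      · have h1 : Q3e_h k n j a = MvPolynomial.X ⟨a - (j + 1), by omega⟩ := by
          unfold Q3e_h
          rw [if_neg (by omega), if_neg (by omega), dif_pos (by omega)]
        rw [h1, hσX]
        congr 2
        ext
        show 2 * a + 1 = 2 * (j + 1 + (a - (j + 1))) + 1
        omega
    have hall : (Ideal.Quotient.mkₐ k J).comp (σ.comp θ) = Ideal.Quotient.mkₐ k J := by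
      refine MvPolynomial.algHom_ext fun i => ?_
      rw [AlgHom.comp_apply, AlgHom.comp_apply, hθX]
      obtain ⟨i, hi⟩ := i
      rcases Nat.even_or_odd' i with ⟨a, ha | ha⟩
      · subst ha
        show (Ideal.Quotient.mkₐ k J) (σ (Q3e_G k n j z (2 * a))) = _
        rw [Q3e_G_even, map_mul, map_mul]
        have h2 : σ (MvPolynomial.C z) = MvPolynomial.C z := σ.commutes z
        have hE : Ef n z a hi ∈ J := Ideal.subset_span (Or.inl (Or.inr ⟨a, hi, rfl⟩))
        rw [h2]
        by_cases h1 : 2 * a + 1 < n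
        · rw [← hodd a h1, ← map_mul]
          symm
          refine Ideal.Quotient.eq.mpr ?_
          unfold Ef at hE
          rw [dif_pos h1] at hE
          exact hE
        · rw [Q3e_h_zero k n j hj a (by omega), map_zero, map_zero, mul_zero]
          symm
          refine Ideal.Quotient.eq_zero_iff_mem.mpr ?_
          unfold Ef at hE
          rw [dif_neg h1] at hE
          exact hE
      · subst ha
        show (Ideal.Quotient.mkₐ k J) (σ (Q3e_G k n j z (2 * a + 1))) = _
        rw [Q3e_G_odd, hodd a hi]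
    intro f hf
    have hf' : θ f = 0 := hf
    have h1 := DFunLike.congr_fun hall f
    rw [AlgHom.comp_apply, AlgHom.comp_apply, hf', map_zero, map_zero] at h1
    exact Ideal.Quotient.eq_zero_iff_mem.mp h1.symm

/-- **Fermat hypersurfaces are filtered by Hermitian pieces**, with an even number of variables if
`n` is even. -/
theorem fermat_fil {p m q t : ℕ} {k : Type} [Field k] (hk : Setg p m q t k) (n : ℕ)
    (Z : Scheme.{0}) (i : Z ⟶ PP k n) [IsClosedImmersion i]
    (hi : Set.range i = ZL (∑ j, MvPolynomial.X j ^ (q + 1))) :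
    PFilK k (IsHermk q k (Even n)) Z (i ≫ PPπ k n) Set.univ := by
  obtain ⟨z, -, hz⟩ := hk.exists_norm (-1) (by
    rw [hk.neg_pow, one_pow]) (by
    exact neg_ne_zero.2 one_ne_zero)
  have hiF : ∀ x : PP k n, x ∈ ZL (FP k n q) → x ∈ Set.range i := by
    intro x hx
    rw [hi]
    exact hx
  let h := n / 2
  -- second kind
  have hB : ∀ j ≤ h, PFilK k (IsHermk q k (Even n)) Z (i ≫ PPπ k n) {y | ∀ f ∈ SB n q z j, i y ∈ ZL f} := by
    intro j hj
    induction hj using Nat.decreasingInduction with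
    | self =>
      have h1 : {y : Z | ∀ f ∈ SB n q z h, i y ∈ ZL f} = ∅ := by
        refine Set.eq_empty_iff_forall_notMem.2 fun y hy => ?_
        exact q3_empty h (by omega) (i y) hy
      rw [h1]
      exact PFilK.empty
    | of_succ j hj ih =>
      obtain ⟨θ, hV, hVr, hθ, hθ1, hθF, hθE, hθX, hker⟩ := chartB k q n z hz (Even n) j (by omega)
      refine pfil_proj n Z i _ θ (SB n q z j) (MvPolynomial.X ⟨2 * j + 1, by omega⟩) hV hθ
        (MvPolynomial.isHomogeneous_X k _) ?_ hθ1 ?_ ?_ ?_ ?_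
      · rintro f (rfl | ⟨a, ha, rfl⟩ | ⟨a, ha, -, rfl⟩)
        · exact ⟨_, q3_FP_hom n q⟩
        · exact ⟨_, q3_E_hom z a ha⟩
        · exact ⟨_, MvPolynomial.isHomogeneous_X k _⟩
      · rintro f (rfl | ⟨a, ha, rfl⟩ | ⟨a, ha, haj, rfl⟩)
        · exact hθF
        · exact hθE a ha
        · exact hθX a haj
      · refine hker.trans (Ideal.span_mono ?_)
        rintro f ((rfl | ⟨a, ha, rfl⟩) | ⟨a, rfl⟩)
        · exact Or.inl rfl
        · exact Or.inr (Or.inr (Or.inl ⟨a, ha, rfl⟩))
        · exact Or.inr (Or.inr (Or.inr ⟨a, by omega, a.2, rfl⟩))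
      · intro x hx _
        exact hiF x (hx _ (Or.inl rfl))
      · have h2 : {y : Z | (∀ f ∈ SB n q z j, i y ∈ ZL f) ∧
            i y ∈ ZL (MvPolynomial.X ⟨2 * j + 1, by omega⟩)} =
            {y : Z | ∀ f ∈ SB n q z (j + 1), i y ∈ ZL f} := by
          ext y
          constructor
          · rintro ⟨h3, h4⟩ f (rfl | ⟨a, ha, rfl⟩ | ⟨a, ha, haj, rfl⟩)
            · exact h3 _ (Or.inl rfl)
            · exact h3 _ (Or.inr (Or.inl ⟨a, ha, rfl⟩))
            · by_cases haj' : a < j
              · exact h3 _ (Or.inr (Or.inr ⟨a, ha, haj', rfl⟩))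
              · obtain rfl : a = j := by omega
                exact h4
          · intro h3
            refine ⟨fun f hf' => h3 f ?_, h3 _ (Or.inr (Or.inr ⟨j, by omega, by omega, rfl⟩))⟩
            rcases hf' with rfl | ⟨a, ha, rfl⟩ | ⟨a, ha, haj, rfl⟩
            · exact Or.inl rfl
            · exact Or.inr (Or.inl ⟨a, ha, rfl⟩)
            · exact Or.inr (Or.inr ⟨a, ha, by omega, rfl⟩)
        rw [h2]
        exact ih
  -- first kind
  have hA : ∀ j ≤ h, PFilK k (IsHermk q k (Even n)) Z (i ≫ PPπ k n) {y | ∀ f ∈ SA n q z j, i y ∈ ZL f} := by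
    intro j hj
    induction hj using Nat.decreasingInduction with
    | self =>
      have h1 : {y : Z | ∀ f ∈ SA n q z h, i y ∈ ZL f} =
          {y : Z | ∀ f ∈ SB n q z 0, i y ∈ ZL f} := by
        ext y
        constructor
        · rintro h3 f (rfl | ⟨a, ha, rfl⟩ | ⟨a, ha, haj, rfl⟩)
          · exact h3 _ (Or.inl rfl)
          · by_cases hah : a < h
            · exact h3 _ (Or.inr ⟨a, ha, hah, rfl⟩)
            · obtain rfl : a = h := by omega
              exact q3_mem_last hz h (by omega) (i y) h3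
          · omega
        · rintro h3 f (rfl | ⟨a, ha, haj, rfl⟩)
          · exact h3 _ (Or.inl rfl)
          · exact h3 _ (Or.inr (Or.inl ⟨a, ha, rfl⟩))
      rw [h1]
      exact hB 0 (Nat.zero_le _)
    | of_succ j hj ih =>
      obtain ⟨V, _, _, θ, hV, hVr, hθ, hθ1, hθF, hθE, hker⟩ := chartA hk n z hz j (by omega)
      refine pfil_proj n Z i V θ (SA n q z j) (Ef n z j (by omega)) hV hθ
        (q3_E_hom z j _) ?_ hθ1 ?_ ?_ ?_ ?_
      · rintro f (rfl | ⟨a, ha, -, rfl⟩)
        · exact ⟨_, q3_FP_hom n q⟩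
        · exact ⟨_, q3_E_hom z a ha⟩
      · rintro f (rfl | ⟨a, ha, haj, rfl⟩)
        · exact hθF
        · exact hθE a haj
      · refine hker.trans (Ideal.span_mono ?_)
        rintro f ((rfl | rfl) | ⟨a, rfl⟩)
        · exact Or.inl rfl
        · exact Or.inr (Or.inl rfl)
        · exact Or.inr (Or.inr ⟨a, by omega, a.2, rfl⟩)
      · intro x hx _
        exact hiF x (hx _ (Or.inl rfl))
      · have h2 : {y : Z | (∀ f ∈ SA n q z j, i y ∈ ZL f) ∧
            i y ∈ ZL (Ef n z j (by omega))} =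
            {y : Z | ∀ f ∈ SA n q z (j + 1), i y ∈ ZL f} := by
          ext y
          constructor
          · rintro ⟨h3, h4⟩ f (rfl | ⟨a, ha, haj, rfl⟩)
            · exact h3 _ (Or.inl rfl)
            · by_cases haj' : a < j
              · exact h3 _ (Or.inr ⟨a, ha, haj', rfl⟩)
              · obtain rfl : a = j := by omega
                exact h4
          · intro h3
            refine ⟨fun f hf' => h3 f ?_, h3 _ (Or.inr ⟨j, by omega, by omega, rfl⟩)⟩
            rcases hf' with rfl | ⟨a, ha, haj, rfl⟩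
            · exact Or.inl rfl
            · exact Or.inr ⟨a, ha, by omega, rfl⟩
        rw [h2]
        exact ih
  have h1 : {y : Z | ∀ f ∈ SA n q z 0, i y ∈ ZL f} = Set.univ := by
    refine Set.eq_univ_of_forall fun y => ?_
    rintro f (rfl | ⟨a, ha, haj, rfl⟩)
    · have h2 : i y ∈ Set.range i := ⟨y, rfl⟩
      rw [hi] at h2
      exact h2
    · omega
  rw [← h1]
  exact hA 0 (Nat.zero_le _)

end fil

end Pool.Agent.THY
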