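import Pool.Agent.THY.Red

/-!
# THY, module Hyp: adding a hyperbolic plane, adding variables
-/

set_option autoImplicit false
set_option linter.unusedSectionVars false
set_option linter.style.haveILetI false

namespace Pool.Agent.THY

open Function Polynomial Pool.Agent.HPow

variable {p m q t : ℕ} {k : Type} [Field k] {G : (R : Type) → [CommRing R] → Prop}

/-- a separable split polynomial is a product over a finite set -/
theorem exists_finset (F : k[X]) (hs : F.Splits) (hm : F.Monic) (hsep : F.Separable) :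
    ∃ s : Finset k, F = ∏ θ ∈ s, (X - C θ) := by
  classical
  refine ⟨F.roots.toFinset, ?_⟩
  have h1 := hs.eq_prod_roots_of_monic hm
  have h2 : F.roots.toFinset.val = F.roots := by
    rw [Multiset.toFinset_val, Multiset.dedup_eq_self]
    exact nodup_roots hsep
  rw [Finset.prod, h2]
  exact h1

theorem exists_sq (hk : Setg p m q t k) : ∃ s : Finset k,
    (X ^ (q ^ 2) - X : k[X]) = ∏ θ ∈ s, (X - C θ) := by
  refine exists_finset _ hk.fq_splits_sq hk.fq_monic_sq ?_
  rw [Polynomial.Separable]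
  have : derivative (X ^ (q ^ 2) - X : k[X]) = -1 := by
    rw [derivative_sub, derivative_X_pow, derivative_X, Nat.cast_pow, hk.fq_q_zero,
      zero_pow (by norm_num), C_0, zero_mul, zero_sub]
  rw [this]
  exact (IsCoprime.neg_right_iff _ _).2 isCoprime_one_right

theorem exists_tr (hk : Setg p m q t k) : ∃ s : Finset k,
    (X ^ q + X : k[X]) = ∏ θ ∈ s, (X - C θ) := by
  refine exists_finset _ hk.fq_splits_tr hk.fq_monic_tr ?_
  rw [Polynomial.Separable]
  have : derivative (X ^ q + X : k[X]) = 1 := by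
    rw [derivative_add, derivative_X_pow, derivative_X, hk.fq_q_zero, C_0, zero_mul, zero_add]
  rw [this]
  exact isCoprime_one_right

section

variable {W : Type} [CommRing W] [Algebra k W]

/-- the fibres over the points `c ^ (q ^ 2) = c` -/
theorem ClsH.fibres (hG : ClsH p q k G) (hk : Setg p m q t k) [IsNoetherianRing W] (h : W)
    (h1 : G (AS1 q W h)) :
    G (AS1 q (W[X] ⧸ Ideal.span {(X ^ (q ^ 2) - X : W[X])}) (Ideal.Quotient.mk _ (C h))) := by
  obtain ⟨e⟩ := red_fib q h
  obtain ⟨s, hs⟩ := exists_sq hk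
  haveI : IsNoetherianRing (AS1 q W h) :=
    isNoetherianRing_of_surjective _ _ (AdjoinRoot.mk _) AdjoinRoot.mk_surjective
  refine hG.iso _ _ e (hG.split h1 s _ ?_)
  have h2 := congrArg (Polynomial.map (algebraMap k (AS1 q W h))) hs
  rw [Polynomial.map_sub, Polynomial.map_pow, Polynomial.map_X, Polynomial.map_prod] at h2
  rw [h2]
  refine Finset.prod_congr rfl fun x _ => ?_
  rw [Polynomial.map_sub, Polynomial.map_X, Polynomial.map_C]

/-- **adding a hyperbolic plane** -/
theorem ClsH.hyp (hG : ClsH p q k G) (hk : Setg p m q t k) [IsNoetherianRing W] (h : W)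
    (h0 : G W) (h1 : G (AS1 q W h)) (b1 b2 : k) (hb1 : b1 ^ q = b1) (hb2 : b2 ^ q = b2)
    (hb10 : b1 ≠ 0) (hb20 : b2 ≠ 0) :
    G (AS1 q W[X][X] (HPow.ext q (HPow.ext q h b1) b2)) := by
  have g1 : G (AS1 q W[X][X] (C (X ^ (q ^ 2) - X) * X + C (C h))) :=
    hG.red W[X] _ _ (hG.poly _ h0) (hG.fibres hk h h1)
  obtain ⟨e3⟩ := red_three q h
  have g2 := hG.iso _ _ e3 g1
  obtain ⟨e2⟩ := iso_sub hk h
  have g3 := hG.iso _ _ e2 g2
  obtain ⟨e1⟩ := iso_rad hk h
  have g4 := hG.iso _ _ e1 g3
  have hq1 := hk.q_two_le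
  have g5 : G (W3 (F1 q h)) := by
    cases subsingleton_or_nontrivial (W3 (F1 q h)) with
    | inl hR => exact hG.zero _
    | inr hR =>
      refine hG.of_monic _ (monic_X_pow_sub_C _ (by omega)) m ?_ g4
      rw [natDegree_X_pow_sub_C]
      exact hk.hq
  obtain ⟨e0⟩ := iso_hyp hk h b1 b2 hb1 hb2 hb10 hb20
  exact hG.iso _ _ e0 g5

/-- a variable which does not occur -/
theorem ClsH.add (hG : ClsH p q k G) [IsNoetherianRing W] (h : W) (h1 : G (AS1 q W h)) :
    G (AS1 q W[X] (C h)) := by
  obtain ⟨e⟩ := stp_iso q h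
  haveI : IsNoetherianRing (AS1 q W h) :=
    isNoetherianRing_of_surjective _ _ (AdjoinRoot.mk _) AdjoinRoot.mk_surjective
  exact hG.iso _ _ e (hG.poly _ h1)

/-- The state `(W, h)` when `r` more variables with nonzero coefficient are to be added. -/
def Ps (q : ℕ) (k : Type) [Field k] (G : (R : Type) → [CommRing R] → Prop) (W : Type)
    [CommRing W] [Algebra k W] (h : W) (r : ℕ) : Prop :=
  G W ∧ (Even r → G (AS1 q W h)) ∧
    (¬ Even r → ∀ b : k, b ^ q = b → b ≠ 0 → G (AS1 q W[X] (HPow.ext q h b)))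

theorem Ps.step_zero (hG : ClsH p q k G) [IsNoetherianRing W] (h : W) (r : ℕ)
    (hP : Ps q k G W h r) : Ps q k G W[X] (HPow.ext q h (0 : k)) r := by
  refine ⟨hG.poly _ hP.1, fun hr => ?_, fun hr b' hb' hb0 => ?_⟩
  · rw [stp_ext_zero]
    exact hG.add (k := k) h (hP.2.1 hr)
  · obtain ⟨e⟩ := iso_swap2 q h b' (0 : k)
    refine hG.iso _ _ e ?_
    rw [stp_ext_zero]
    exact hG.add (k := k) _ (hP.2.2 hr b' hb' hb0)

theorem Ps.step (hG : ClsH p q k G) (hk : Setg p m q t k) [IsNoetherianRing W] (h : W) (r : ℕ)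
    (hP : Ps q k G W h (r + 1)) (b : k) (hb : b ^ q = b) (hb0 : b ≠ 0) :
    Ps q k G W[X] (HPow.ext q h b) r := by
  refine ⟨hG.poly _ hP.1, fun hr => ?_, fun hr b' hb' hb0' => ?_⟩
  · exact hP.2.2 (by rwa [Nat.even_add_one, not_not]) b hb hb0
  · exact hG.hyp hk h hP.1 (hP.2.1 (by rwa [Nat.even_add_one])) b b' hb hb' hb0 hb0'

theorem Ps.of_equiv (hG : ClsH p q k G) {W' : Type} [CommRing W'] [Algebra k W'] (e : W ≃ₐ[k] W')
    (h : W) (r : ℕ) (hP : Ps q k G W h r) : Ps q k G W' (e h) r := by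
  refine ⟨hG.iso _ _ e.toRingEquiv hP.1, fun hr => ?_, fun hr b hb hb0 => ?_⟩
  · obtain ⟨e1⟩ := stp_congr q e.toRingEquiv h (e h) rfl
    exact hG.iso _ _ e1 (hP.2.1 hr)
  · obtain ⟨e1⟩ := stp_congr q (Polynomial.mapEquiv e.toRingEquiv) (HPow.ext q h b)
      (HPow.ext q (e h) b) (by
      show Polynomial.map (e.toRingEquiv : W →+* W') (HPow.ext q h b) = _
      rw [HPow.ext, HPow.ext, Polynomial.map_add, Polynomial.map_mul, Polynomial.map_pow,
        Polynomial.map_X, Polynomial.map_C, Polynomial.map_C]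
      show C (e h) + C (e (algebraMap k W b)) * _ = _
      rw [AlgEquiv.commutes])
    exact hG.iso _ _ e1 (hP.2.2 hr b hb hb0)

open Classical in
/-- adding the variables -/
theorem Ps.mv (hG : ClsH p q k G) (hk : Setg p m q t k) [IsNoetherianRing W] (h : W) (n : ℕ) :
    ∀ (b : Fin n → k), (∀ j, b j ^ q = b j) → ∀ r : ℕ,
    Ps q k G W h (r + (Finset.univ.filter fun j => b j ≠ 0).card) →
    Ps q k G (MvPolynomial (Fin n) W)
      (MvPolynomial.C h +
        ∑ j, MvPolynomial.C (algebraMap k W (b j)) * MvPolynomial.X j ^ (q + 1)) r := by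
  induction n with
  | zero =>
    intro b hb r hP
    rw [Finset.univ_eq_empty, Finset.filter_empty, Finset.card_empty, add_zero] at hP
    have h1 := Ps.of_equiv hG ((MvPolynomial.isEmptyAlgEquiv W (Fin 0)).symm.restrictScalars k) h
      r hP
    have h2 : ((MvPolynomial.isEmptyAlgEquiv W (Fin 0)).symm.restrictScalars k) h =
        MvPolynomial.C h := by
      exact (MvPolynomial.isEmptyAlgEquiv W (Fin 0)).symm.commutes h
    rw [h2] at h1
    rw [Finset.univ_eq_empty, Finset.sum_empty, add_zero]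
    exact h1
  | succ n ih =>
    intro b hb r hP
    have h1 : Ps q k G (MvPolynomial (Fin n) W)[X] (HPow.ext q (MvPolynomial.C h +
        ∑ j : Fin n, MvPolynomial.C (algebraMap k W (b j.succ)) * MvPolynomial.X j ^ (q + 1))
        (b 0)) r := by
      rw [Fin.card_filter_univ_succ] at hP
      by_cases hb0 : b 0 = 0
      · rw [if_neg (by rwa [not_not])] at hP
        rw [hb0]
        exact Ps.step_zero hG _ r (ih (fun j => b j.succ) (fun j => hb j.succ) r hP)
      · rw [if_pos hb0] at hP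
        refine Ps.step hG hk _ r (ih (fun j => b j.succ) (fun j => hb j.succ) (r + 1) ?_) (b 0)
          (hb 0) hb0
        rw [add_right_comm, ← add_assoc] at *
        exact hP
    have h2 := Ps.of_equiv hG ((MvPolynomial.finSuccEquiv W n).symm.restrictScalars k) _ r h1
    have h3 : ((MvPolynomial.finSuccEquiv W n).symm.restrictScalars k)
        (HPow.ext q (MvPolynomial.C h + ∑ j : Fin n,
        MvPolynomial.C (algebraMap k W (b j.succ)) * MvPolynomial.X j ^ (q + 1)) (b 0)) =
        MvPolynomial.C h +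
          ∑ j, MvPolynomial.C (algebraMap k W (b j)) * MvPolynomial.X j ^ (q + 1) := by
      rw [AlgEquiv.restrictScalars_apply, AlgEquiv.symm_apply_eq, Fin.sum_univ_succ, map_add,
        map_add, map_sum, map_mul, map_pow, MvPolynomial.finSuccEquiv_X_zero]
      have hC : ∀ c : W, MvPolynomial.finSuccEquiv W n (MvPolynomial.C c) =
          C (MvPolynomial.C c) := fun c => by
        rw [← MvPolynomial.algebraMap_eq, AlgEquiv.commutes]
        rfl
      have hA : algebraMap k (MvPolynomial (Fin n) W) (b 0) =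
          MvPolynomial.C (algebraMap k W (b 0)) := rfl
      simp only [map_mul, map_pow, MvPolynomial.finSuccEquiv_X_succ, hC, HPow.ext, map_sum,
        map_add, hA]
      ring
    rw [h3] at h2
    exact h2

end

end Pool.Agent.THY
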