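import Pool.Agent.KSS.Q3c
import Pool.Agent.HPow.ASr
import Pool.Agent.RHS.Base

/-!
# THY, module Rdc: Hermitian rings over reduced rings are reduced
-/

set_option autoImplicit false

noncomputable section

namespace Pool.Agent.THY

open Function Polynomial Pool.Agent.KSS Pool.Agent.HPow

theorem red_adjoin {W : Type} [CommRing W] [IsReduced W] (P : W[X]) (hP : P.Monic)
    (hsep : ∀ (I : Ideal W), I.IsPrime → (P.map (Ideal.Quotient.mk I)).Separable) :
    IsReduced (AdjoinRoot P) := by
  refine ⟨fun x hx => ?_⟩
  obtain ⟨f, rfl⟩ := AdjoinRoot.mk_surjective x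
  have h1 : AdjoinRoot.mk P f = AdjoinRoot.mk P (f %ₘ P) := by
    rw [AdjoinRoot.mk_eq_mk]
    exact ⟨f /ₘ P, by
      have := modByMonic_add_div f P
      linear_combination -this⟩
  rw [h1] at hx ⊢
  have h2 : f %ₘ P = 0 := by
    ext i
    rw [coeff_zero]
    refine IsReduced.eq_zero _ (nilpotent_iff_mem_prime.2 fun J hJ => ?_)
    have hm : (P.map (Ideal.Quotient.mk J)).Monic := hP.map _
    have hr : IsReduced (AdjoinRoot (P.map (Ideal.Quotient.mk J))) :=
      thm_Q3c _ _ hm (hsep J hJ)
    let φ : AdjoinRoot P →+* AdjoinRoot (P.map (Ideal.Quotient.mk J)) :=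
      AdjoinRoot.lift ((AdjoinRoot.of _).comp (Ideal.Quotient.mk J))
        (AdjoinRoot.root (P.map (Ideal.Quotient.mk J))) (by
        rw [← eval₂_map]
        exact AdjoinRoot.eval₂_root _)
    have hφ : ∀ g : W[X], φ (AdjoinRoot.mk P g) =
        AdjoinRoot.mk _ (g.map (Ideal.Quotient.mk J)) := by
      intro g
      show AdjoinRoot.lift _ _ _ (AdjoinRoot.mk P g) = _
      rw [AdjoinRoot.lift_mk, ← eval₂_map]
      exact AdjoinRoot.aeval_eq _
    have h3 : AdjoinRoot.mk (P.map (Ideal.Quotient.mk J))
        ((f %ₘ P).map (Ideal.Quotient.mk J)) = 0 := by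
      rw [← hφ]
      exact (hx.map φ).eq_zero
    rw [AdjoinRoot.mk_eq_zero] at h3
    have h4 : (f %ₘ P).map (Ideal.Quotient.mk J) = 0 := by
      by_cases hnt : Nontrivial W
      · refine eq_zero_of_dvd_of_degree_lt h3 ?_
        refine lt_of_le_of_lt (degree_map_le (f := Ideal.Quotient.mk J)) ?_
        rw [hP.degree_map]
        exact degree_modByMonic_lt f hP
      · exact (hJ.ne_top (by
          have := not_nontrivial_iff_subsingleton.1 hnt
          exact Subsingleton.elim _ _)).elim
    have h5 : ((f %ₘ P).map (Ideal.Quotient.mk J)).coeff i = 0 := by rw [h4, coeff_zero]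
    rw [coeff_map] at h5
    exact Ideal.Quotient.eq_zero_iff_mem.1 h5
  rw [h2, map_zero]

variable {p m q t : ℕ} {k : Type} [Field k]

theorem as1_reduced (hk : Setg p m q t k) {W : Type} [CommRing W] [Algebra k W] [IsReduced W]
    (h : W) : IsReduced (AS1 q W h) := by
  have hq := hk.q_two_le
  by_cases hnt : Nontrivial W
  swap
  · have h0 := not_nontrivial_iff_subsingleton.1 hnt
    have h1 : Subsingleton (AS1 q W h) := by
      refine subsingleton_of_zero_eq_one ?_
      have : (0 : W) = 1 := Subsingleton.elim _ _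
      have h2 := congrArg (algebraMap W (AS1 q W h)) this
      rwa [map_zero, map_one] at h2
    exact ⟨fun x _ => Subsingleton.elim _ _⟩
  have hP : (X ^ q + X - C h : W[X]).Monic := by
    rw [add_sub_assoc]
    apply monic_X_pow_add
    rw [degree_X_sub_C]
    exact_mod_cast (by omega : 1 < q)
  refine red_adjoin _ hP fun I hI => ?_
  have hqW : (q : W ⧸ I) = 0 := by
    have h1 := congrArg (algebraMap k W) hk.fq_q_zero
    rw [map_natCast, map_zero] at h1
    have h2 := congrArg (Ideal.Quotient.mk I) h1
    rwa [map_natCast, map_zero] at h2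
  rw [Polynomial.Separable]
  have h1 : derivative ((X ^ q + X - C h : W[X]).map (Ideal.Quotient.mk I)) = 1 := by
    rw [Polynomial.map_sub, Polynomial.map_add, Polynomial.map_pow, map_X, map_C, derivative_sub,
      derivative_add, derivative_X_pow, derivative_X, derivative_C, hqW, C_0, zero_mul, zero_add,
      sub_zero]
  rw [h1]
  exact isCoprime_one_right

theorem as_reduced (hk : Setg p m q t k) {W : Type} [CommRing W] [Algebra k W] [IsReduced W] :
    ∀ {s : ℕ} (f : Fin s → W), IsReduced (AS q W f) := by
  intro s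
  induction s with
  | zero =>
    intro f
    obtain ⟨e⟩ := AS.exists_zero q f
    exact isReduced_of_injective e e.injective
  | succ s ih =>
    intro f
    have h1 := ih (Fin.tail f)
    obtain ⟨e, -⟩ := AS.exists_cons q (f 0) (Fin.tail f)
    rw [Fin.cons_self_tail] at e
    have h2 := as1_reduced hk (W := AS q W (Fin.tail f)) (algebraMap W _ (f 0))
    exact isReduced_of_injective e e.injective

/-- **Hermitian rings over reduced rings are reduced.** -/
theorem hermB_reduced (hk : Setg p m q t k) {B : Type} [CommRing B] [Algebra k B] [IsReduced B]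
    {s n : ℕ} (h : Fin s → B) (a : Fin s → Fin n → k) :
    IsReduced (Pool.Agent.RHS.HermB q h a) := by
  obtain ⟨e⟩ := Pool.Agent.RHS.base_iso q h a
  have h1 : IsReduced (AS q (MvPolynomial (Fin n) B) (fun i => MvPolynomial.C (h i) +
        ∑ j, MvPolynomial.C (algebraMap k B (a i j)) * MvPolynomial.X j ^ (q + 1))) :=
    as_reduced hk _
  exact isReduced_of_injective e.symm e.symm.injective

end Pool.Agent.THY
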