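import Pool.Agent.THY.Cls

/-!
# THY, module Red: the isomorphisms used with the field `red`
-/

set_option autoImplicit false
set_option linter.unusedSectionVars false
set_option linter.style.haveILetI false

namespace Pool.Agent.THY

open Function Polynomial Pool.Agent.HPow

/-- `W[y] / (y ^ q + y - h)` modulo `g` -/
theorem red_quot (q : ℕ) {R : Type} [CommRing R] (g h : R) :
    Nonempty ((R[X] ⧸ (Ideal.span {(X ^ q + X - C h : R[X])} ⊔ Ideal.span {C g})) ≃+*
      AS1 q (R ⧸ Ideal.span {g}) (Ideal.Quotient.mk _ h)) := by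
  let F : R[X] := X ^ q + X - C h
  have e1 := AdjoinRoot.quotAdjoinRootEquivQuotPolynomialQuot (Ideal.span {g}) F
  have e2 := DoubleQuot.quotQuotEquivQuotSup (Ideal.span {F}) (Ideal.span {(C g : R[X])})
  have h1 : (Ideal.span {g}).map (AdjoinRoot.of F) =
      (Ideal.span {(C g : R[X])}).map (Ideal.Quotient.mk (Ideal.span {F})) := by
    rw [Ideal.map_span, Ideal.map_span, Set.image_singleton, Set.image_singleton]
    rfl
  have h2 : Ideal.span ({F.map (Ideal.Quotient.mk (Ideal.span {g}))} :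
      Set (R ⧸ Ideal.span {g})[X]) =
      Ideal.span {(X ^ q + X - C (Ideal.Quotient.mk (Ideal.span {g}) h) :
        (R ⧸ Ideal.span {g})[X])} := by
    congr 2
    rw [Polynomial.map_sub, Polynomial.map_add, Polynomial.map_pow, Polynomial.map_X,
      Polynomial.map_C]
  exact ⟨e2.symm.trans ((Ideal.quotEquivOfEq h1.symm).trans (e1.trans
    (Ideal.quotEquivOfEq h2)))⟩

/-- `W[v][y] / (y ^ q + y - g v - h)` as the hypersurface `g v = y ^ q + y - h` over `W[y]` -/
theorem red_swap (q : ℕ) {W : Type} [CommRing W] (g h : W) :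
    Nonempty ((W[X][X] ⧸ Ideal.span {(C (C g) * X - C (X ^ q + X - C h) : W[X][X])}) ≃+*
      AS1 q W[X] (C g * X + C h)) := by
  refine hypa_quot ((Polynomial.Bivariate.swap (R := W)).toRingEquiv : W[X][X] →+* W[X][X])
    ((Polynomial.Bivariate.swap (R := W)).toRingEquiv : W[X][X] →+* W[X][X]) ?_ ?_ _ _ ?_
  · refine RingHom.ext fun x => ?_
    exact Polynomial.Bivariate.swap_swap_apply x
  · refine RingHom.ext fun x => ?_
    exact Polynomial.Bivariate.swap_swap_apply x
  · have h1 : ((Polynomial.Bivariate.swap (R := W)).toRingEquiv : W[X][X] →+* W[X][X])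
        (C (C g) * X - C (X ^ q + X - C h)) = -(X ^ q + X - C (C g * X + C h)) := by
      show Polynomial.Bivariate.swap (C (C g) * X - C (X ^ q + X - C h)) = _
      rw [map_sub, map_mul, Polynomial.Bivariate.swap_C_C, Polynomial.Bivariate.swap_Y,
        Polynomial.Bivariate.swap_C, Polynomial.map_sub, Polynomial.map_add, Polynomial.map_pow,
        Polynomial.map_X, Polynomial.map_C]
      simp only [C_add, C_mul]
      ring
    rw [h1]
    exact Ideal.span_singleton_neg _

/-- `W[c][v][y]` and `W[c, v, y]` -/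
theorem red_three (q : ℕ) {W : Type} [CommRing W] (h : W) :
    Nonempty (AS1 q W[X][X] (C (X ^ (q ^ 2) - X) * X + C (C h)) ≃+* W3 (F3 q h)) := by
  let f : W[X][X][X] →+* MvPolynomial (Fin 3) W := Polynomial.eval₂RingHom
    (Polynomial.eval₂RingHom (Polynomial.eval₂RingHom MvPolynomial.C (MvPolynomial.X 0))
      (MvPolynomial.X 1)) (MvPolynomial.X 2)
  let γ : W →+* W[X][X][X] :=
    (C : W[X][X] →+* W[X][X][X]).comp ((C : W[X] →+* W[X][X]).comp (C : W →+* W[X]))
  let v : Fin 3 → W[X][X][X] := ![C (C X), C X, X]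
  let g : MvPolynomial (Fin 3) W →+* W[X][X][X] := MvPolynomial.eval₂Hom γ v
  have fC : ∀ w : W, f (C (C (C w))) = MvPolynomial.C w := fun w => by simp [f]
  have f0 : f (C (C X)) = MvPolynomial.X 0 := by simp [f]
  have f1 : f (C X) = MvPolynomial.X 1 := by simp [f]
  have f2 : f X = MvPolynomial.X 2 := by simp [f]
  have gC : ∀ w : W, g (MvPolynomial.C w) = C (C (C w)) := fun w => by simp [g, γ]
  have g0 : g (MvPolynomial.X 0) = C (C X) := by simp [g, v]
  have g1 : g (MvPolynomial.X 1) = C X := by simp [g, v]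
  have g2 : g (MvPolynomial.X 2) = X := by simp [g, v]
  refine hypa_quot f g ?_ ?_ _ _ ?_
  · refine Polynomial.ringHom_ext' (Polynomial.ringHom_ext' (Polynomial.ringHom_ext' ?_ ?_) ?_) ?_
    · refine RingHom.ext fun w => ?_
      show g (f (C (C (C w)))) = C (C (C w))
      rw [fC, gC]
    · show g (f (C (C X))) = C (C X)
      rw [f0, g0]
    · show g (f (C X)) = C X
      rw [f1, g1]
    · show g (f X) = X
      rw [f2, g2]
  · apply MvPolynomial.ringHom_ext
    · intro w
      show f (g (MvPolynomial.C w)) = MvPolynomial.C w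
      rw [gC, fC]
    · intro i
      fin_cases i
      · show f (g (MvPolynomial.X 0)) = MvPolynomial.X 0
        rw [g0, f0]
      · show f (g (MvPolynomial.X 1)) = MvPolynomial.X 1
        rw [g1, f1]
      · show f (g (MvPolynomial.X 2)) = MvPolynomial.X 2
        rw [g2, f2]
  · congr 2
    simp only [map_sub, map_add, map_mul, map_pow, fC, f0, f1, f2]

/-- the fibres `c ^ (q ^ 2) = c` -/
theorem red_fib (q : ℕ) {W : Type} [CommRing W] (h : W) :
    Nonempty (AdjoinRoot (X ^ (q ^ 2) - X : (AS1 q W h)[X]) ≃+*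
      AS1 q (W[X] ⧸ Ideal.span {(X ^ (q ^ 2) - X : W[X])}) (Ideal.Quotient.mk _ (C h))) := by
  obtain ⟨e1⟩ := hypb_iso q h
  obtain ⟨e3⟩ := red_quot q (X ^ (q ^ 2) - X : W[X]) (C h)
  let f : W[X][X] →+* MvPolynomial (Fin 2) W := Polynomial.eval₂RingHom
    (Polynomial.eval₂RingHom MvPolynomial.C (MvPolynomial.X 0)) (MvPolynomial.X 1)
  let γ : W →+* W[X][X] := (C : W[X] →+* W[X][X]).comp (C : W →+* W[X])
  let v : Fin 2 → W[X][X] := ![C X, X]
  let g : MvPolynomial (Fin 2) W →+* W[X][X] := MvPolynomial.eval₂Hom γ v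
  have fC : ∀ w : W, f (C (C w)) = MvPolynomial.C w := fun w => by simp [f]
  have f0 : f (C X) = MvPolynomial.X 0 := by simp [f]
  have f1 : f X = MvPolynomial.X 1 := by simp [f]
  have gC : ∀ w : W, g (MvPolynomial.C w) = C (C w) := fun w => by simp [g, γ]
  have g0 : g (MvPolynomial.X 0) = C X := by simp [g, v]
  have g1 : g (MvPolynomial.X 1) = X := by simp [g, v]
  have h1 : g.comp f = RingHom.id _ := by
    refine Polynomial.ringHom_ext' (Polynomial.ringHom_ext' ?_ ?_) ?_
    · refine RingHom.ext fun w => ?_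
      show g (f (C (C w))) = C (C w)
      rw [fC, gC]
    · show g (f (C X)) = C X
      rw [f0, g0]
    · show g (f X) = X
      rw [f1, g1]
  have h2 : f.comp g = RingHom.id _ := by
    apply MvPolynomial.ringHom_ext
    · intro w
      show f (g (MvPolynomial.C w)) = MvPolynomial.C w
      rw [gC, fC]
    · intro i
      fin_cases i
      · show f (g (MvPolynomial.X 0)) = MvPolynomial.X 0
        rw [g0, f0]
      · show f (g (MvPolynomial.X 1)) = MvPolynomial.X 1
        rw [g1, f1]
  let e : MvPolynomial (Fin 2) W ≃+* W[X][X] := RingEquiv.ofRingHom g f h1 h2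
  refine ⟨e1.trans ((Ideal.quotientEquiv _ _ e ?_).trans e3)⟩
  rw [Ideal.map_span, Set.image_pair, ← Ideal.span_union, Set.union_singleton]
  have k1 : (e : MvPolynomial (Fin 2) W →+* W[X][X]) (dl q W) = C (X ^ (q ^ 2) - X) := by
    show g (MvPolynomial.X 0 ^ (q ^ 2) - MvPolynomial.X 0) = _
    rw [map_sub, map_pow, g0, C_sub, C_pow]
  have k2 : (e : MvPolynomial (Fin 2) W →+* W[X][X]) (gg q h) = X ^ q + X - C (C h) := by
    show g (MvPolynomial.X 1 ^ q + MvPolynomial.X 1 - MvPolynomial.C h) = _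
    rw [map_sub, map_add, map_pow, g1, gC]
  rw [k1, k2]

end Pool.Agent.THY
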